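import Pool.Agent.H984R4.HN.Ret
import Pool.Agent.H984R4.HN.Couple
import Pool.Agent.H984R4.HN.Arms

/-!
The exploration path as an algorithm: the first `n` steps depend on the edges at the visited
vertices, and a vertex at distance `d` from the origin is visited with probability at most
`C d ^ (-c)`.
-/

set_option autoImplicit false

namespace Pool.Agent.Zk72.NE

open H984H H974 H984P H342P Finset MeasureTheory

/-- The configuration with a given set of open edges. -/
noncomputable def cf (F : Finset Edg) : Conf := fun e => decide (e ∈ F)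

theorem path_local {n : ℕ} {ω ω' : Conf} (h : ∀ k < n, ∀ e : Edg,
    (src e = (path ω k).1 ∨ tgt e = (path ω k).1) → 0 ≤ e.2.1 → ω e = ω' e) :
    ∀ k ≤ n, path ω k = path ω' k := by
  intro k
  induction k with
  | zero => intro _; rfl
  | succ k ih =>
    intro hk
    rw [path_succ, path_succ, ← ih (by omega)]
    apply step_congr
    intro e he
    unfold opn
    simp only [Set.mem_ofPred_eq]
    by_cases h0 : 0 ≤ e.2.1
    · rw [h k (by omega) e he h0]
    · constructor <;> rintro (⟨h1, -⟩ | ⟨h1, -⟩) <;> omega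

theorem path_far (ω : Conf) (k : ℕ) : sd (path ω k).1 (0, 0) ≤ k := by
  induction k with
  | zero => simp [path, sd]
  | succ k ih =>
    have h1 := path_step ω k
    have h2 := Step_tri (path ω (k + 1)).1 (path ω k).1 (0, 0)
    have h3 : sd (path ω (k + 1)).1 (path ω k).1 = sd (path ω k).1 (path ω (k + 1)).1 := by
      unfold sd
      rw [abs_sub_comm, abs_sub_comm (path ω (k + 1)).1.2]
    push_cast
    omega

/-- The edges at the vertices of the box. -/
theorem edge_box {ρ : ℤ} {v : Vtx} (h0 : 0 ≤ v.2) (hv : sd v (0, 0) < ρ) {e : Edg}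
    (he : src e = v ∨ tgt e = v) (he0 : 0 ≤ e.2.1) : e ∈ (bx ρ).edges := by
  rw [Ret_sd, max_lt_iff, abs_lt, abs_lt] at hv
  show e ∈ RE (-ρ) ρ 0 ρ
  obtain ⟨x, y, _ | _⟩ := e
  · rw [mem_RE_false]
    rw [src_mk, tgt_false] at he
    simp only at he0
    rcases he with rfl | rfl <;> simp only at h0 hv <;> omega
  · rw [mem_RE_true]
    rw [src_mk, tgt_true] at he
    simp only at he0
    rcases he with rfl | rfl <;> simp only at h0 hv <;> omega

theorem path_cut {n : ℕ} {ρ : ℤ} (hρ : (n : ℤ) < ρ) (ω : Conf) :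
    ∀ k ≤ n, path ω k = path (cf (cut ω ρ)) k := by
  apply path_local
  intro k hk e he he0
  have h1 : e ∈ (bx ρ).edges := edge_box (path_nonneg ω k)
    (lt_of_le_of_lt (path_far ω k) (by omega)) he he0
  unfold cf
  by_cases h : ω e = true
  · rw [h, eq_comm, decide_eq_true_eq, Perc_mem_cut]
    exact ⟨h1, h⟩
  · rw [Bool.not_eq_true] at h
    rw [h, eq_comm, decide_eq_false_iff_not, Perc_mem_cut]
    rintro ⟨-, h2⟩
    rw [h] at h2
    exact absurd h2 (by decide)

/-- The path visits `v` in the first `n` steps. -/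
def Vst (n : ℕ) (v : Vtx) (ω : Conf) : Prop := ∃ k < n, (path ω k).1 = v

/-- The edges at the visited vertices. -/
noncomputable def Rset (ρ : ℤ) (n : ℕ) (F : Finset Edg) : Finset Edg := by
  classical exact
  (bx ρ).edges.filter (fun e => ∃ k < n, src e = (path (cf F) k).1 ∨ tgt e = (path (cf F) k).1)

theorem mem_Rset {ρ : ℤ} {n : ℕ} {F : Finset Edg} {e : Edg} : e ∈ Rset ρ n F ↔
    e ∈ (bx ρ).edges ∧ ∃ k < n, src e = (path (cf F) k).1 ∨ tgt e = (path (cf F) k).1 := by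
  unfold Rset
  rw [Finset.mem_filter]

theorem Rset_sub (ρ : ℤ) (n : ℕ) (F : Finset Edg) : Rset ρ n F ⊆ (bx ρ).edges :=
  fun _ he => (mem_Rset.1 he).1

theorem Rset_path {n : ℕ} {ρ : ℤ} (hρ : (n : ℤ) < ρ) {Y Y' : Finset Edg}
    (h : Y ∩ Rset ρ n Y = Y' ∩ Rset ρ n Y) : ∀ k ≤ n, path (cf Y) k = path (cf Y') k := by
  apply path_local
  intro k hk e he he0
  have h1 : e ∈ (bx ρ).edges := edge_box (path_nonneg _ k)
    (lt_of_le_of_lt (path_far _ k) (by omega)) he he0
  have h2 : e ∈ Rset ρ n Y := mem_Rset.2 ⟨h1, k, hk, he⟩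
  have h3 : e ∈ Y ↔ e ∈ Y' := by
    have := Finset.ext_iff.1 h e
    rw [Finset.mem_inter, Finset.mem_inter] at this
    tauto
  unfold cf
  rw [decide_eq_decide]
  exact h3

theorem Rset_congr {n : ℕ} {ρ : ℤ} {Y Y' : Finset Edg}
    (h : ∀ k ≤ n, path (cf Y) k = path (cf Y') k) : Rset ρ n Y' = Rset ρ n Y := by
  ext e
  rw [mem_Rset, mem_Rset]
  refine and_congr_right fun _ => ?_
  constructor
  · rintro ⟨k, hk, h1⟩
    exact ⟨k, hk, by rw [h k hk.le]; exact h1⟩
  · rintro ⟨k, hk, h1⟩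
    exact ⟨k, hk, by rw [← h k hk.le]; exact h1⟩

theorem Rset_stop {n : ℕ} {ρ : ℤ} (hρ : (n : ℤ) < ρ) {Y Y' : Finset Edg}
    (h : Y ∩ Rset ρ n Y = Y' ∩ Rset ρ n Y) : Rset ρ n Y' = Rset ρ n Y :=
  Rset_congr (Rset_path hρ h)

theorem Vst_cut {n : ℕ} {ρ : ℤ} (hρ : (n : ℤ) < ρ) (v : Vtx) :
    perc.real {ω | Vst n v ω} = P (bx ρ).edges (fun F => Vst n v (cf F)) := by
  rw [← perc_cut]
  congr 1
  ext ω
  simp only [Set.mem_ofPred_eq]
  unfold Vst
  constructor
  · rintro ⟨k, hk, h⟩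
    exact ⟨k, hk, by rw [← path_cut hρ ω k hk.le]; exact h⟩
  · rintro ⟨k, hk, h⟩
    exact ⟨k, hk, by rw [path_cut hρ ω k hk.le]; exact h⟩

/-- The probability that an edge is revealed. -/
theorem reveal {n : ℕ} {ρ : ℤ} (hρ : (n : ℤ) < ρ) (e : Edg) :
    P (bx ρ).edges (fun F => e ∈ Rset ρ n F) ≤
      perc.real {ω | Vst n (src e) ω} + perc.real {ω | Vst n (tgt e) ω} := by
  rw [Vst_cut hρ, Vst_cut hρ]
  have h1 : P (bx ρ).edges (fun F => e ∈ Rset ρ n F) ≤
      P (bx ρ).edges (fun F => Vst n (src e) (cf F) ∨ Vst n (tgt e) (cf F)) := by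
    refine Ex_mono (fun _ => ⟨by norm_num, by norm_num⟩) fun F _ => ?_
    refine ind_mono ?_
    intro h
    obtain ⟨-, k, hk, h⟩ := mem_Rset.1 h
    rcases h with h | h
    · exact Or.inl ⟨k, hk, h.symm⟩
    · exact Or.inr ⟨k, hk, h.symm⟩
  refine h1.trans ?_
  show Ex _ _ _ ≤ Ex _ _ _ + Ex _ _ _
  rw [← Ex_add]
  refine Ex_mono (fun _ => ⟨by norm_num, by norm_num⟩) fun F _ => ?_
  by_cases a : Vst n (src e) (cf F)
  · rw [ind_of (Or.inl a), ind_of a]
    have := ind_nonneg (Vst n (tgt e) (cf F))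
    linarith
  · by_cases b : Vst n (tgt e) (cf F)
    · rw [ind_of (Or.inr b), ind_of b]
      have := ind_nonneg (Vst n (src e) (cf F))
      linarith
    · rw [ind_not_of (not_or.2 ⟨a, b⟩), ind_not_of a, ind_not_of b]
      norm_num

/-! ### the probability to visit a vertex -/

/-- The open arm. -/
theorem arm_open {ω : Conf} {v : Vtx} {k : ℕ} (hk : (path ω k).1 = v) {ρ : ℤ} {d R : ℕ}
    (hd : sd v (0, 0) = d) (hR : 1 ≤ R) (hRd : 4 * R ≤ d) (hρ : 2 * (d : ℤ) < ρ)
    (hA : (R : ℤ) ≤ v.2 ∨ v.1 = d) : H12S.Crs v.1 v.2 1 R (↑(cut ω ρ) : Set Edg) := by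
  have h1 := path_clu ω k
  rw [hk] at h1
  have h0 : 0 ≤ v.2 := by rw [← hk]; exact path_nonneg ω k
  rw [Ret_sd] at hd
  have hd1 : |v.1| ≤ d := by rw [← hd]; exact le_max_left _ _
  have hd2 : |v.2| ≤ d := by rw [← hd]; exact le_max_right _ _
  have hd3 : |v.1| = d ∨ |v.2| = d := by
    rcases max_choice |v.1| |v.2| with h | h
    · left; rw [← hd, h]
    · right; rw [← hd, h]
  rw [abs_le] at hd1 hd2
  have hd3' : v.1 = d ∨ v.1 = -d ∨ v.2 = d ∨ v.2 = -d := by
    rcases hd3 with h | h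
    · rcases abs_choice v.1 with h' | h' <;> omega
    · rcases abs_choice v.2 with h' | h' <;> omega
  obtain ⟨z, hz, hp⟩ := arms_reach (F := opn ω) (X := (↑(cut ω ρ) : Set Edg))
    (G := (↑(cut ω ρ) : Set Edg))
    (fun z => (v.1 - R < z.1 ∧ z.1 < v.1 + R) ∧ (v.2 - R < z.2 ∧ z.2 < v.2 + R))
    (fun e he hB => by
      rw [Finset.mem_coe, Couple_mem_cut]
      obtain ⟨x, y, _ | _⟩ := e
      · rcases he with he | he
        · simp at he
        · simp only [src_mk, tgt_false] at hB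
          simp only at he
          rw [mem_RE_false]
          refine ⟨?_, he.2.2⟩
          omega
      · simp only [src_mk, tgt_true] at hB
        rcases he with he | he
        · exfalso
          simp only at he
          omega
        · simp only at he
          rw [mem_RE_true]
          refine ⟨?_, he.2.2⟩
          omega) (fun e he => he.2) h1.symm (by
      show ¬ ((v.1 - R < (0:ℤ) ∧ (0:ℤ) < v.1 + R) ∧ (v.2 - R < (0:ℤ) ∧ (0:ℤ) < v.2 + R))
      omega)
  refine ⟨v, z, ?_, ?_, hp⟩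
  · unfold inR
    push_cast
    omega
  · omega

/-- The dual arm. -/
theorem arm_dual {ω : Conf} {v : Vtx} {n k : ℕ} (hkn : k < n) (hk : (path ω k).1 = v) {ρ : ℤ}
    {d R : ℕ} (hR : 1 ≤ R) (hRd : 4 * R ≤ d) (hρ : (n : ℤ) < ρ) (hB : v.1 = -d) :
    H12S.DCrs v.1 v.2 1 R (↑((bx ρ).edges \ cut ω ρ) : Set Edg) := by
  have hρ1 : 1 ≤ ρ := by omega
  obtain ⟨h1, h2⟩ := couple hρ1 ω (k := k) (fun j hj =>
    lt_of_le_of_lt (path_far ω j) (by omega))
  obtain ⟨-, g, hg, h3⟩ := walk_clu (bx_ok hρ1) (Couple_cut_sub ω ρ)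
    (k := (bx ρ).len (cut ω ρ) - 1 - k) (by omega)
  rw [h2] at h3
  have hf := arms_face (path ω k)
  rw [hk] at hf
  obtain ⟨z, hz, hp⟩ := arms_dreach (F := (↑(bx ρ).edges \ (bx ρ).cfg (cut ω ρ) : Set Edg))
    (X := (↑((bx ρ).edges \ cut ω ρ) : Set Edg)) (G := (↑((bx ρ).edges \ cut ω ρ) : Set Edg))
    (fun z => (v.1 - R < z.1 ∧ z.1 < v.1 + R) ∧ (v.2 - R < z.2 ∧ z.2 < v.2 + R))
    (fun e he hB' => by
      rw [Finset.coe_sdiff]
      refine ⟨he.1, fun hc => he.2 (Or.inl ⟨hc, ?_⟩)⟩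
      rintro ⟨q1, q2, q3⟩
      obtain ⟨x, y, b⟩ := e
      simp only at q1 q2 q3
      subst q1
      simp only [dsrc_true, dtgt_mk] at hB'
      omega) (fun e he => he.2) h3.symm (by
      show ¬ ((v.1 - R < g.1 ∧ g.1 < v.1 + R) ∧ (v.2 - R < g.2 ∧ g.2 < v.2 + R))
      have hg' : 0 ≤ g.1 := by
        rcases hg with hg | hg | hg <;> simp only [bx] at hg <;> omega
      omega)
  refine ⟨face (path ω k), z, ?_, ?_, hp⟩
  · unfold inR
    push_cast
    omega
  · omega

/-- A vertex at distance `d` is visited with probability at most `C d ^ (-c)`. -/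
theorem visit : ∃ c C : ℝ, 0 < c ∧ 0 < C ∧ ∀ (n : ℕ) (v : Vtx) (d : ℕ), 1 ≤ d →
    sd v (0, 0) = d → perc.real {ω | Vst n v ω} ≤ C * (d : ℝ) ^ (-c) := by
  obtain ⟨κ, hκ, hW⟩ := H12S.win_half
  obtain ⟨C, c, hC, hc, harm⟩ := H12S.win_arm_of
    (fun h _ h1 h2 => fun c1 c2 S => H12S.win_blk h h1 h2 c1 c2 S) κ hκ
  refine ⟨c, max C 1 * 8 ^ c, hc, by positivity, fun n v d hd hv => ?_⟩
  have hd0 : (0:ℝ) < d := by exact_mod_cast hd
  have e8 : (8:ℝ) ^ c * (d:ℝ) ^ (-c) = (8 / d) ^ c := by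
    rw [Real.div_rpow (by norm_num) hd0.le, Real.rpow_neg hd0.le, div_eq_mul_inv]
  rw [mul_assoc, e8]
  by_cases h4 : d < 4
  · have h5 : (1:ℝ) ≤ 8 / d := by
      rw [one_le_div hd0]
      have : (d:ℝ) < 4 := by exact_mod_cast h4
      linarith
    calc perc.real {ω | Vst n v ω} ≤ 1 := measureReal_le_one
      _ = 1 * 1 := (one_mul 1).symm
      _ ≤ max C 1 * (8 / d) ^ c := mul_le_mul (le_max_right _ _)
          (Real.one_le_rpow h5 hc.le) (by norm_num) (by positivity)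
  · rw [not_lt] at h4
    obtain ⟨R, hR⟩ : ∃ R : ℕ, R = d / 4 := ⟨_, rfl⟩
    have hR1 : 1 ≤ R := by omega
    have hRd : 4 * R ≤ d := by omega
    have hR0 : (0:ℝ) < R := by exact_mod_cast hR1
    obtain ⟨ρ, hρ⟩ : ∃ ρ : ℤ, ρ = n + 2 * d + 1 := ⟨_, rfl⟩
    have key : perc.real {ω | Vst n v ω} ≤ C * ((1 : ℕ) / R : ℝ) ^ c := by
      by_cases hA : (R : ℤ) ≤ v.2 ∨ v.1 = d
      · have h1 : perc.real {ω | Vst n v ω} ≤
            perc.real {ω | H12S.Crs v.1 v.2 1 R (↑(cut ω ρ) : Set Edg)} := by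
          apply measureReal_mono
          · rintro ω ⟨k, -, hk⟩
            exact arm_open hk hv hR1 hRd (by omega) hA
          · exact measure_ne_top _ _
        refine h1.trans ?_
        rw [perc_cut ρ (fun F => H12S.Crs v.1 v.2 1 R (↑F : Set Edg))]
        exact (harm (1/2) R (hW R) 1 R le_rfl hR1 le_rfl v.1 v.2 (bx ρ).edges).1
      · have h1 : perc.real {ω | Vst n v ω} ≤
            perc.real {ω | H12S.DCrs v.1 v.2 1 R (↑((bx ρ).edges \ cut ω ρ) : Set Edg)} := by
          apply measureReal_mono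
          · rintro ω ⟨k, hkn, hk⟩
            refine arm_dual (d := d) hkn hk hR1 hRd (by omega) ?_
            have h0 : 0 ≤ v.2 := by rw [← hk]; exact path_nonneg ω k
            rw [Ret_sd] at hv
            have hd1 : |v.2| < d := by rw [abs_of_nonneg h0]; omega
            have hd2 : |v.1| = d := by
              rcases max_choice |v.1| |v.2| with h | h
              · rw [← hv, h]
              · rw [h] at hv; omega
            rcases abs_choice v.1 with h' | h' <;> omega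
          · exact measure_ne_top _ _
        refine h1.trans ?_
        rw [perc_cut ρ (fun F => H12S.DCrs v.1 v.2 1 R (↑((bx ρ).edges \ F) : Set Edg))]
        exact (harm (1/2) R (hW R) 1 R le_rfl hR1 le_rfl v.1 v.2 (bx ρ).edges).2
    refine key.trans ?_
    have h6 : ((1 : ℕ) / R : ℝ) ≤ 8 / d := by
      rw [Nat.cast_one, div_le_div_iff₀ hR0 hd0]
      have : d ≤ 8 * R := by omega
      have : (d:ℝ) ≤ 8 * R := by exact_mod_cast this
      linarith
    exact mul_le_mul (le_max_left _ _) (Real.rpow_le_rpow (by positivity) h6 hc.le)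
      (by positivity) (by positivity)

end Pool.Agent.Zk72.NE
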