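import Pool.Agent.H389R2.NS.SS
import Pool.Agent.H389R2.NS.SumSp

/-!
The spectral mass of a function of an exploration: the sets which meet `W` and the other sets.
-/

set_option autoImplicit false

namespace Pool.Agent.Zk72.NE

open H389NS H974 H12S Finset

variable {E : Type*} [DecidableEq E]

theorem UU_full {S W : Finset E} (hW : W ⊆ S) (f : Finset E → ℝ) :
    UU hp S W f = ∑ T ∈ (S \ W).powerset, (wal S f T) ^ 2 := by
  unfold UU
  rw [← SumSpAux.parseval]
  refine Finset.sum_congr rfl fun T hT => ?_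
  rw [SumSpAux.wal_partial hW (Finset.mem_powerset.1 hT)]

theorem geo_sum {x : ℝ} (h0 : 0 ≤ x) (h1 : x < 1) (N : ℕ) :
    ∑ j ∈ Finset.range N, (j : ℝ) * x ^ j ≤ 1 / (1 - x) ^ 2 := by
  have hx : ‖x‖ < 1 := by rw [Real.norm_eq_abs, abs_of_nonneg h0]; exact h1
  have h2 := hasSum_coe_mul_geometric_of_norm_lt_one hx
  have h3 : ∑ j ∈ Finset.range N, (j : ℝ) * x ^ j ≤ x / (1 - x) ^ 2 :=
    sum_le_hasSum _ (fun j _ => by positivity) h2
  refine h3.trans ?_
  exact div_le_div_of_nonneg_right h1.le (sq_nonneg _)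

theorem union_bound {V T : Finset E} (R : Finset E → Finset E) {δ : ℝ}
    (hδ : ∀ e ∈ T, Pr hp V (fun Y => e ∈ R Y) ≤ δ) :
    Pr hp V (fun Y => ¬ Disjoint T (R Y)) ≤ T.card * δ := by
  classical
  have h1 : Pr hp V (fun Y => ¬ Disjoint T (R Y)) ≤ ∑ e ∈ T, Pr hp V (fun Y => e ∈ R Y) := by
    unfold Pr
    rw [← Ex_sum]
    refine Ex_mono SSx.hp_ok fun F _ => ?_
    by_cases h : Disjoint T (R F)
    · rw [ind_not_of (not_not.2 h)]
      exact Finset.sum_nonneg fun e _ => ind_nonneg _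
    · rw [ind_of h]
      obtain ⟨a, ha, ha'⟩ := Finset.not_disjoint_iff.1 h
      have h2 := Finset.single_le_sum (s := T) (f := fun e => ind (e ∈ R F))
        (fun e _ => ind_nonneg _) ha
      rw [ind_of ha'] at h2
      exact h2
  refine h1.trans ((Finset.sum_le_sum hδ).trans ?_)
  rw [Finset.sum_const, nsmul_eq_mul]

/-- The spectral mass of the nonempty sets, with the weight `x ^ |T|`. -/
theorem mass {V W : Finset E} (hW : W ⊆ V) {g : Finset E → ℝ} (hg : ∀ F, F ⊆ V → |g F| ≤ 1)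
    (R : Finset E → Finset E) (hRV : ∀ Y, Y ⊆ V → R Y ⊆ V)
    (hRs : ∀ Y Y', Y ⊆ V → Y' ⊆ V → Y ∩ R Y = Y' ∩ R Y → R Y' = R Y)
    (hRf : ∀ Y Y', Y ⊆ V → Y' ⊆ V → Y ∩ R Y = Y' ∩ R Y → g Y' = g Y)
    {δ : ℝ} (hδ0 : 0 ≤ δ) (hδ : ∀ e ∈ V \ W, Pr hp V (fun Y => e ∈ R Y) ≤ δ)
    {x : ℝ} (hx0 : 0 ≤ x) (hx1 : x < 1) :
    ∑ T ∈ V.powerset.filter (fun T => T.Nonempty), (wal V g T) ^ 2 * x ^ T.card ≤
      (Ex hp V (fun F => (g F) ^ 2) - UU hp V W g) + δ / (1 - x) ^ 2 := by
  classical
  have hnn : ∀ T, 0 ≤ (wal V g T) ^ 2 * x ^ T.card := fun T =>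
    mul_nonneg (sq_nonneg _) (pow_nonneg hx0 _)
  rw [← Finset.sum_filter_add_sum_filter_not _ (fun T => ¬ Disjoint T W)]
  refine add_le_add ?_ ?_
  · -- the sets which meet `W`
    rw [UU_full hW, ← SumSpAux.parseval]
    have e1 : (V \ W).powerset = V.powerset.filter (fun T => Disjoint T W) := by
      ext T
      rw [Finset.mem_filter, Finset.mem_powerset, Finset.mem_powerset, Finset.subset_sdiff]
    rw [e1, ← Finset.sum_filter_add_sum_filter_not V.powerset (fun T => Disjoint T W),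
      add_sub_cancel_left]
    refine (Finset.sum_le_sum fun T _ => mul_le_of_le_one_right (sq_nonneg (wal V g T))
      (pow_le_one₀ hx0 hx1.le)).trans ?_
    refine Finset.sum_le_sum_of_subset_of_nonneg ?_ (fun T _ _ => sq_nonneg _)
    intro T hT
    rw [Finset.mem_filter, Finset.mem_filter] at hT
    rw [Finset.mem_filter]
    exact ⟨hT.1.1, hT.2⟩
  · -- the other sets
    set 𝓖 := (V.powerset.filter (fun T => T.Nonempty)).filter (fun T => ¬ ¬ Disjoint T W) with h𝓖
    have hm : ∀ T ∈ 𝓖, T ⊆ V ∧ T.Nonempty ∧ Disjoint T W := by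
      intro T hT
      rw [h𝓖, Finset.mem_filter, Finset.mem_filter, Finset.mem_powerset, not_not] at hT
      exact ⟨hT.1.1, hT.1.2, hT.2⟩
    have h1 : ∑ T ∈ 𝓖, (wal V g T) ^ 2 * x ^ T.card =
        ∑ j ∈ Finset.range (V.card + 1), ∑ T ∈ 𝓖.filter (fun T => T.card = j),
          (wal V g T) ^ 2 * x ^ T.card := by
      refine (Finset.sum_fiberwise_of_maps_to (fun T hT => ?_) _).symm
      rw [Finset.mem_range]
      have := Finset.card_le_card (hm T hT).1
      omega
    rw [h1]
    have h2 : ∀ j ∈ Finset.range (V.card + 1), ∑ T ∈ 𝓖.filter (fun T => T.card = j),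
        (wal V g T) ^ 2 * x ^ T.card ≤ δ * ((j : ℝ) * x ^ j) := by
      intro j _
      have e2 : ∑ T ∈ 𝓖.filter (fun T => T.card = j), (wal V g T) ^ 2 * x ^ T.card =
          (∑ T ∈ 𝓖.filter (fun T => T.card = j), (wal V g T) ^ 2) * x ^ j := by
        rw [Finset.sum_mul]
        refine Finset.sum_congr rfl fun T hT => ?_
        rw [(Finset.mem_filter.1 hT).2]
      rw [e2]
      rcases Nat.eq_zero_or_pos j with hj | hj
      · subst hj
        have : 𝓖.filter (fun T => T.card = 0) = ∅ := by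
          rw [Finset.filter_eq_empty_iff]
          intro T hT h0
          exact (hm T hT).2.1.ne_empty (Finset.card_eq_zero.1 h0)
        rw [this]
        simp
      · have h3 := schramm_steif hg (fun e : E => e) R hRV
          (fun Y _ e he e' _ hee => by rw [hee]; exact he) hRs hRf hj
          (𝓕 := 𝓖.filter (fun T => T.card = j))
          (fun T hT => by
            rw [Finset.image_id']
            exact ⟨(hm T (Finset.mem_filter.1 hT).1).1, (Finset.mem_filter.1 hT).2⟩)
          (δ := (j : ℝ) * δ) (by positivity)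
          (fun T hT => by
            have h4 := hm T (Finset.mem_filter.1 hT).1
            have h5 := union_bound (V := V) (T := T) R (δ := δ) (fun e he => hδ e (by
              rw [Finset.mem_sdiff]
              exact ⟨h4.1 he, fun h => Finset.disjoint_left.1 h4.2.2 he h⟩))
            rw [(Finset.mem_filter.1 hT).2] at h5
            exact h5)
        calc _ ≤ ((j : ℝ) * δ) * x ^ j := mul_le_mul_of_nonneg_right h3 (pow_nonneg hx0 _)
          _ = _ := by ring
    refine (Finset.sum_le_sum h2).trans ?_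
    rw [← Finset.mul_sum, div_eq_mul_one_div]
    exact mul_le_mul_of_nonneg_left (geo_sum hx0 hx1 _) hδ0

end Pool.Agent.Zk72.NE
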