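import Pool.Agent.Zk72.NE.Det
import Pool.Agent.Zk72.NE.Sp
import Pool.Agent.Zk72.NE.Rev
import Pool.Agent.H984R4.HN.FinalH

/-!
Resampling a small half-box around the origin changes the curve little.
-/

set_option autoImplicit false

namespace Pool.Agent.Zk72.NE

open H984H H974 H984P H342P Finset MeasureTheory

/-! ### curves -/

theorem pl_node {N : ℕ} (hN : 0 < N) (p : ℕ → ℂ) {k : ℕ} (hk : k ≤ N) (s : unitInterval)
    (hs : (s : ℝ) = k / N) : H984N.pl N p s = p k := by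
  have hN0 : (0:ℝ) < N := by exact_mod_cast hN
  have h1 : (s : ℝ) * N = k := by rw [hs]; field_simp
  rcases eq_or_lt_of_le hk with h | h
  · subst h
    have : s = 1 := by
      apply Subtype.ext
      rw [hs]
      show (k : ℝ) / k = 1
      exact div_self hN0.ne'
    rw [this, H984N.pl_one]
  · rw [H984N.pl_seg h (le_of_eq h1.symm) (by linarith), h1]
    simp

theorem pl_dist {N : ℕ} {p q : ℕ → ℂ} {D : ℝ} (hD : 0 ≤ D) (h : ∀ k ≤ N, dist (p k) (q k) ≤ D) :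
    dist (H984N.pl N p) (H984N.pl N q) ≤ D := by
  rw [ContinuousMap.dist_le hD]
  intro s
  rcases Nat.eq_zero_or_pos N with rfl | hN
  · rw [H984N.pl_apply', H984N.pl_apply']
    simpa using h 0 le_rfl
  · obtain ⟨k, hk, h1, h2⟩ := H984N.pl_exists_seg hN s
    rw [H984N.pl_seg hk h1 h2, H984N.pl_seg hk h1 h2, dist_eq_norm]
    set t : ℝ := (s : ℝ) * N - k with ht
    have ht0 : 0 ≤ t := by linarith
    have ht1 : t ≤ 1 := by linarith
    have e : p k + (t : ℂ) * (p (k + 1) - p k) - (q k + (t : ℂ) * (q (k + 1) - q k)) =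
        ((1 - t : ℝ) : ℂ) * (p k - q k) + (t : ℂ) * (p (k + 1) - q (k + 1)) := by
      push_cast; ring
    rw [e]
    refine (norm_add_le _ _).trans ?_
    rw [norm_mul, norm_mul, Complex.norm_real, Complex.norm_real, Real.norm_eq_abs,
      Real.norm_eq_abs, abs_of_nonneg ht0, abs_of_nonneg (by linarith : 0 ≤ 1 - t),
      ← dist_eq_norm, ← dist_eq_norm]
    have h3 := h k hk.le
    have h4 := h (k + 1) (by omega)
    nlinarith

theorem goodC_node {n : ℕ} (hn : 0 < n) {β Λ : ℝ} {ω : Conf} (h : curve n ω ∈ GoodC β Λ)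
    {k l : ℕ} (hk : k ≤ n) (hl : l ≤ n) :
    dist ((((n : ℝ) ^ (-(4/7) : ℝ) : ℝ) : ℂ) * gam ω k)
      ((((n : ℝ) ^ (-(4/7) : ℝ) : ℝ) : ℂ) * gam ω l) ≤ Λ * |(k : ℝ) / n - l / n| ^ β := by
  have hn0 : (0:ℝ) < n := by exact_mod_cast hn
  have hs : ∀ j : ℕ, j ≤ n → (j : ℝ) / n ∈ unitInterval := by
    intro j hj
    refine ⟨by positivity, ?_⟩
    rw [div_le_one hn0]
    exact_mod_cast hj
  have h1 := h.2 ⟨_, hs k hk⟩ ⟨_, hs l hl⟩
  unfold curve at h1
  rw [pl_node hn _ hk _ rfl, pl_node hn _ hl _ rfl] at h1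
  exact h1

/-- If the path leaves the box of radius `R` after time `m`, then it stays long near the origin. -/
theorem reach_of {ω : Conf} {m R τ : ℕ} (h : ∀ j < τ, sd (path ω j).1 (0, 0) < R)
    (hm : 2 * (R : ℝ) + 1 < reach m ω) : τ ≤ m := by
  by_contra hcon
  rw [not_le] at hcon
  apply absurd hm
  rw [not_lt]
  unfold reach
  apply Finset.sup'_le
  intro k hk
  rw [Finset.mem_range] at hk
  have h1 := h k (by omega)
  have h2 := norm_place_le (path ω k)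
  have h3 : ((sd (path ω k).1 (0, 0) : ℤ) : ℝ) ≤ R := by exact_mod_cast h1.le
  unfold gam
  linarith

/-- Closeness of the curves. -/
theorem close {n m r R : ℕ} (hn : 0 < n) (hR : r < R) {β Λ : ℝ} (hβ : 0 < β) (hΛ : 0 ≤ Λ)
    {ω ω' : Conf} (hO : Off r ω ω') (hS : ∀ v ∈ Ret_S ω r, sd v (0, 0) < R)
    (h1 : 2 * (R : ℝ) + 1 < reach m ω) (h2 : 2 * (R : ℝ) + 1 < reach m ω')
    (h3 : curve n ω ∈ GoodC β Λ) (h4 : curve n ω' ∈ GoodC β Λ) :
    dist (curve n ω) (curve n ω') ≤ 2 * (Λ * ((m : ℝ) / n) ^ β) := by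
  have hn0 : (0:ℝ) < n := by exact_mod_cast hn
  obtain ⟨τ, τ', -, -, a1, a2, a3⟩ := det hR hO hS
  have b1 : τ ≤ m := reach_of a1 h1
  have b2 : τ' ≤ m := reach_of a2 h2
  have hD : 0 ≤ Λ * ((m : ℝ) / n) ^ β := by positivity
  have hnode : ∀ η : Conf, curve n η ∈ GoodC β Λ → ∀ k l : ℕ, k ≤ n → l ≤ n → k ≤ l → l ≤ k + m →
      dist ((((n : ℝ) ^ (-(4/7) : ℝ) : ℝ) : ℂ) * gam η k)
        ((((n : ℝ) ^ (-(4/7) : ℝ) : ℝ) : ℂ) * gam η l) ≤ Λ * ((m : ℝ) / n) ^ β := by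
    intro η hη k l hk hl hkl hlm
    refine (goodC_node hn hη hk hl).trans ?_
    refine mul_le_mul_of_nonneg_left (Real.rpow_le_rpow (abs_nonneg _) ?_ hβ.le) hΛ
    rw [← sub_div, abs_div, abs_of_pos hn0]
    refine div_le_div_of_nonneg_right ?_ hn0.le
    have c1 : (k : ℝ) ≤ l := by exact_mod_cast hkl
    have c2 : (l : ℝ) ≤ k + m := by exact_mod_cast hlm
    rw [abs_le]
    constructor <;> linarith
  unfold curve
  apply pl_dist (by positivity)
  intro k hk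
  by_cases hkm : k ≤ m
  · have c1 := hnode ω h3 0 k (by omega) hk (by omega) (by omega)
    have c2 := hnode ω' h4 0 k (by omega) hk (by omega) (by omega)
    have c3 : gam ω 0 = gam ω' 0 := rfl
    rw [dist_comm] at c1
    rw [← c3] at c2
    refine (dist_triangle _ ((((n : ℝ) ^ (-(4/7) : ℝ) : ℝ) : ℂ) * gam ω 0) _).trans ?_
    linarith
  · rw [not_le] at hkm
    rcases le_total τ τ' with h | h
    · have e1 : gam ω' k = gam ω (k - (τ' - τ)) := by
        have := a3 (k - τ')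
        unfold gam
        rw [show k - (τ' - τ) = τ + (k - τ') by omega, this]
        congr 2
        omega
      have c1 := hnode ω h3 (k - (τ' - τ)) k (by omega) hk (by omega) (by omega)
      rw [e1, dist_comm]
      linarith
    · have e1 : gam ω k = gam ω' (k - (τ - τ')) := by
        have := a3 (k - τ)
        unfold gam
        rw [show k - (τ - τ') = τ' + (k - τ) by omega, ← this]
        congr 2
        omega
      have c1 := hnode ω' h4 (k - (τ - τ')) k (by omega) hk (by omega) (by omega)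
      rw [e1]
      linarith

/-! ### the conditional variance -/

open H389NS H12S in
theorem var_le {E : Type*} [DecidableEq E] {V W : Finset E} (hW : W ⊆ V) {g : Finset E → ℝ}
    (hg : ∀ F, F ⊆ V → |g F| ≤ 1) {B : Finset E → Prop} {d : ℝ}
    (h : ∀ F F', F ⊆ V → F' ⊆ V → F \ W = F' \ W → ¬ B F → ¬ B F' → |g F - g F'| ≤ d) :
    Ex hp V (fun F => (g F) ^ 2) - UU hp V W g ≤ d ^ 2 + 4 * Pr hp V B := by
  classical
  have hok : Ok (hp : E → ℝ) := SSx.hp_ok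
  unfold UU Pr
  rw [Ex_split hW, Ex_split hW (fun F => ind (B F)), ← Ex_sub, ← Ex_const hp (V \ W) (d ^ 2),
    ← Ex_mul_left, ← Ex_add]
  refine Ex_mono hok fun G hG => ?_
  have hsub : ∀ Y, Y ⊆ W → G ∪ Y ⊆ V := fun Y hY =>
    Finset.union_subset (hG.trans Finset.sdiff_subset) (hY.trans hW)
  have hsd : ∀ Y, Y ⊆ W → (G ∪ Y) \ W = G := by
    intro Y hY
    rw [Finset.union_sdiff_distrib, Finset.sdiff_eq_empty_iff_subset.2 hY, Finset.union_empty]
    exact Finset.sdiff_eq_self_of_disjoint (Finset.disjoint_of_subset_left hG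
      Finset.sdiff_disjoint)
  have hsq : ∀ Y, Y ⊆ W → (g (G ∪ Y)) ^ 2 ≤ 1 := by
    intro Y hY
    rw [← sq_abs]
    exact pow_le_one₀ (abs_nonneg _) (hg _ (hsub Y hY))
  by_cases hex : ∃ Y0, Y0 ⊆ W ∧ ¬ B (G ∪ Y0)
  · obtain ⟨Y0, hY0, hB0⟩ := hex
    set c := g (G ∪ Y0) with hc
    have e1 : Ex hp W (fun Y => (g (G ∪ Y) - c) ^ 2) = Ex hp W (fun Y => (g (G ∪ Y)) ^ 2) -
        2 * c * Ex hp W (fun Y => g (G ∪ Y)) + c ^ 2 := by
      have h1 : ∀ Y, (g (G ∪ Y) - c) ^ 2 = ((g (G ∪ Y)) ^ 2 - (2 * c) * g (G ∪ Y)) + c ^ 2 := by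
        intro Y; ring
      rw [Ex_congr (fun Y _ => h1 Y), Ex_add, Ex_const, Ex_sub, Ex_mul_left]
    have e2 : Ex hp W (fun Y => (g (G ∪ Y) - c) ^ 2) ≤
        Ex hp W (fun Y => d ^ 2 + 4 * ind (B (G ∪ Y))) := by
      refine Ex_mono hok fun Y hY => ?_
      by_cases hb : B (G ∪ Y)
      · rw [ind_of hb]
        have h1 := abs_le.1 (hg _ (hsub Y hY))
        have h2 := abs_le.1 (hg _ (hsub Y0 hY0))
        rw [← hc] at h2
        nlinarith [sq_nonneg d]
      · rw [ind_not_of hb]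
        have h1 := h _ _ (hsub Y hY) (hsub Y0 hY0) (by rw [hsd Y hY, hsd Y0 hY0]) hb hB0
        have h2 := abs_le.1 h1
        rw [← hc] at h2
        nlinarith
    rw [Ex_add, Ex_const, Ex_mul_left] at e2
    nlinarith [sq_nonneg (Ex hp W (fun Y => g (G ∪ Y)) - c)]
  · push Not at hex
    have e1 : Ex hp W (fun Y => ind (B (G ∪ Y))) = 1 := by
      rw [Ex_congr (fun Y hY => ind_of (hex Y hY)), Ex_const]
    have e2 : Ex hp W (fun Y => (g (G ∪ Y)) ^ 2) ≤ 1 := by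
      have := Ex_mono hok (S := W) (f := fun Y => (g (G ∪ Y)) ^ 2) (g := fun _ => (1:ℝ)) hsq
      rwa [Ex_const] at this
    rw [e1]
    nlinarith [sq_nonneg (Ex hp W (fun Y => g (G ∪ Y))), sq_nonneg d]

/-! ### the bad events -/

/-- The cluster of the half-box of radius `r` reaches distance `R`. -/
theorem ret_prob : ∃ a A : ℝ, 0 < a ∧ 0 < A ∧ ∀ r R : ℕ, 1 ≤ r → r < R →
    perc.real {ω | ¬ ∀ v ∈ Ret_S ω r, sd v (0, 0) < R} ≤ A * ((r : ℝ) / R) ^ a := by
  obtain ⟨κ, hκ, hW⟩ := H12S.win_half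
  obtain ⟨C, c, hC, hc, harm⟩ := H12S.win_arm_of
    (fun h _ h1 h2 => fun c1 c2 S => H12S.win_blk h h1 h2 c1 c2 S) κ hκ
  refine ⟨c, C, hc, hC, fun r R hr hrR => ?_⟩
  have h1 : perc.real {ω | ¬ ∀ v ∈ Ret_S ω r, sd v (0, 0) < R} ≤
      perc.real {ω | H12S.Crs 0 0 r R (↑(cut ω R) : Set Edg)} := by
    apply measureReal_mono
    · intro ω hω
      simp only [Set.mem_ofPred_eq] at hω ⊢
      push Not at hω
      obtain ⟨v, hv, hv2⟩ := hω
      exact Ret_arm ω hrR hv hv2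
    · exact measure_ne_top _ _
  refine h1.trans ?_
  rw [perc_cut (R : ℤ) (fun F => H12S.Crs 0 0 r R (↑F : Set Edg))]
  exact (harm (1/2) R (hW R) r R hr hrR.le le_rfl 0 0 (bx R).edges).1

theorem Ret_S_mono {ω ω' : Conf} (h : ∀ e, ω e = true → ω' e = true) {r : ℤ} {v : Vtx}
    (hv : v ∈ Ret_S ω r) : v ∈ Ret_S ω' r := by
  obtain ⟨u, h1, h2, h3⟩ := hv
  have hsub : Ret_O ω ⊆ Ret_O ω' := fun e he => ⟨he.1, he.2.1, h e he.2.2⟩
  exact ⟨u, h1, h2, Reach.mono hsub h3⟩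

theorem cf_cut_le {ω : Conf} {ρ : ℤ} {e : Edg} (h : cf (cut ω ρ) e = true) : ω e = true := by
  unfold cf at h
  rw [decide_eq_true_eq, Perc_mem_cut] at h
  exact h.2

theorem curve_cut {n : ℕ} {ρ : ℤ} (hρ : (n : ℤ) < ρ) (ω : Conf) :
    curve n (cf (cut ω ρ)) = curve n ω := by
  unfold curve
  apply Perc_pl_congr
  intro k hk
  unfold gam
  rw [path_cut hρ ω k hk]

theorem reach_cut {m n : ℕ} (hmn : m ≤ n) {ρ : ℤ} (hρ : (n : ℤ) < ρ) (ω : Conf) :
    reach m (cf (cut ω ρ)) = reach m ω := by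
  unfold reach
  apply Finset.sup'_congr _ rfl
  intro k hk
  rw [Finset.mem_range] at hk
  unfold gam
  rw [path_cut hρ ω k (by omega)]

open Classical in
/-- The edges of the box of radius `r`. -/
noncomputable def WW (ρ : ℤ) (r : ℕ) : Finset Edg := (bx ρ).edges.filter (fun e => InBox r e)

open Classical in
theorem mem_WW {ρ : ℤ} {r : ℕ} {e : Edg} : e ∈ WW ρ r ↔ e ∈ (bx ρ).edges ∧ InBox r e := by
  unfold WW
  rw [Finset.mem_filter]

theorem WW_sub (ρ : ℤ) (r : ℕ) : WW ρ r ⊆ (bx ρ).edges := fun _ he => (mem_WW.1 he).1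

/-- The bad event. -/
def Bad (n m r R : ℕ) (β Λ : ℝ) (ω : Conf) : Prop :=
  (¬ ∀ v ∈ Ret_S ω r, sd v (0, 0) < R) ∨ reach m ω ≤ 2 * (R : ℝ) + 1 ∨ curve n ω ∉ GoodC β Λ

open H389NS H12S in
/-- The conditional variance of the curve given the configuration outside of the box. -/
theorem var_curve {n m r R : ℕ} (hn : 0 < n) (hmn : m ≤ n) (hrR : r < R) {ρ : ℤ}
    (hρ : (n : ℤ) < ρ) {β Λ : ℝ} (hβ : 0 < β) (hΛ : 0 ≤ Λ) {G : C(unitInterval, ℂ) → ℝ}
    (hG1 : ∀ f, |G f| ≤ 1) (hG2 : LipschitzWith 1 G) :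
    Ex hp (bx ρ).edges (fun F => (G (curve n (cf F))) ^ 2) -
        UU hp (bx ρ).edges (WW ρ r) (fun F => G (curve n (cf F))) ≤
      (2 * (Λ * ((m : ℝ) / n) ^ β)) ^ 2 + 4 * perc.real {ω | Bad n m r R β Λ ω} := by
  have h1 := var_le (WW_sub ρ r) (g := fun F => G (curve n (cf F)))
    (fun F _ => hG1 _) (B := fun F => Bad n m r R β Λ (cf F))
    (d := 2 * (Λ * ((m : ℝ) / n) ^ β)) (by
      intro F F' _ _ hFF hF hF'
      unfold Bad at hF hF'
      push Not at hF hF'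
      obtain ⟨a1, a2, a3⟩ := hF
      obtain ⟨-, b2, b3⟩ := hF'
      have hO : Off r (cf F) (cf F') := by
        intro e he
        unfold cf
        rw [decide_eq_decide]
        have hW : e ∉ WW ρ r := fun h => he (mem_WW.1 h).2
        have := Finset.ext_iff.1 hFF e
        rw [Finset.mem_sdiff, Finset.mem_sdiff] at this
        tauto
      have h2 := close hn hrR hβ hΛ hO a1 a2 b2 a3 b3
      have h3 := hG2.dist_le_mul (curve n (cf F)) (curve n (cf F'))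
      rw [Real.dist_eq] at h3
      simp only [NNReal.coe_one, one_mul] at h3
      exact h3.trans h2)
  refine h1.trans ?_
  have h2 : Pr hp (bx ρ).edges (fun F => Bad n m r R β Λ (cf F)) ≤
      perc.real {ω | Bad n m r R β Λ ω} := by
    show P (bx ρ).edges (fun F => Bad n m r R β Λ (cf F)) ≤ _
    rw [← perc_cut ρ (fun F => Bad n m r R β Λ (cf F))]
    apply measureReal_mono
    · intro ω hω
      simp only [Set.mem_ofPred_eq] at hω ⊢
      rcases hω with h | h | h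
      · left
        intro hcon
        exact h fun v hv => hcon v (Ret_S_mono (fun e he => cf_cut_le he) hv)
      · right; left
        rw [reach_cut hmn hρ] at h
        exact h
      · right; right
        rw [curve_cut hρ] at h
        exact h
    · exact measure_ne_top _ _
  linarith

/-- The probability of the bad event. -/
theorem bad_prob {c C : ℝ} (hc : 0 < c) (hC : 0 < C) (hL : LowA c (1/4)) (hU : TwoUp C (1/4)) :
    ∃ a A A' : ℝ, 0 < a ∧ 0 < A ∧ 0 < A' ∧ ∀ ε : ℝ, 0 < ε → ∃ Λ : ℝ, 1 ≤ Λ ∧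
      ∀ n m r R : ℕ, 1 ≤ n → 1 ≤ m → 1 ≤ r → r < R →
      perc.real {ω | Bad n m r R (1/2) Λ ω} ≤ A * ((r : ℝ) / R) ^ a +
        A' * ((2 * (R : ℝ) + 1) / (m : ℝ) ^ (4/7 : ℝ)) ^ (7/4 : ℝ) + ε := by
  obtain ⟨a, A, ha, hA, hret⟩ := ret_prob
  obtain ⟨A', hA', hlow⟩ := tail_low hC hU
  refine ⟨a, A, A', ha, hA, hA', fun ε hε => ?_⟩
  obtain ⟨Λ, hΛ, htight⟩ := tight_curve hc hC hL hU (β := 1/2) (by norm_num) (by norm_num) hε
  refine ⟨Λ, hΛ, fun n m r R hn hm hr hrR => ?_⟩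
  have hm0 : (0:ℝ) < m := by exact_mod_cast hm
  have hm1 : (0:ℝ) < (m : ℝ) ^ (4/7 : ℝ) := Real.rpow_pos_of_pos hm0 _
  have h1 := hret r R hr hrR
  have h2 := hlow m ((2 * (R : ℝ) + 1) / (m : ℝ) ^ (4/7 : ℝ)) hm (by positivity)
  rw [div_mul_cancel₀ _ hm1.ne'] at h2
  have h3 := htight n hn
  have h4 : perc.real {ω | Bad n m r R (1/2) Λ ω} ≤
      perc.real ({ω | ¬ ∀ v ∈ Ret_S ω r, sd v (0, 0) < R} ∪
        ({ω | reach m ω ≤ 2 * (R : ℝ) + 1} ∪ {ω | curve n ω ∉ GoodC (1/2) Λ})) := by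
    apply measureReal_mono
    · intro ω hω
      rcases hω with h | h | h
      · exact Or.inl h
      · exact Or.inr (Or.inl h)
      · exact Or.inr (Or.inr h)
    · exact measure_ne_top _ _
  have h5 := (measureReal_union_le (μ := perc) {ω | ¬ ∀ v ∈ Ret_S ω r, sd v (0, 0) < R}
    ({ω | reach m ω ≤ 2 * (R : ℝ) + 1} ∪ {ω | curve n ω ∉ GoodC (1/2) Λ}))
  have h6 := (measureReal_union_le (μ := perc) {ω | reach m ω ≤ 2 * (R : ℝ) + 1}
    {ω | curve n ω ∉ GoodC (1/2) Λ})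
  linarith

end Pool.Agent.Zk72.NE
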