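import Pool.Agent.H984R4.HN.Ret
import Pool.Agent.H984R4.HN.Couple

/-!
Two configurations which agree outside of a half-box: if the cluster of the half-box off the axis
does not reach distance `R`, then the two exploration paths agree, up to a shift of the time, after
they have left this cluster.
-/

set_option autoImplicit false

namespace Pool.Agent.Zk72.NE

open H984H H974 H984P H342P

/-- The edge joins two vertices of the box of radius `r`. -/
def InBox (r : ℤ) (e : Edg) : Prop := sd (src e) (0, 0) ≤ r ∧ sd (tgt e) (0, 0) ≤ r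

/-- The configurations agree outside of the box. -/
def Off (r : ℤ) (ω ω' : Conf) : Prop := ∀ e, ¬ InBox r e → ω e = ω' e

theorem Off.symm {r : ℤ} {ω ω' : Conf} (h : Off r ω ω') : Off r ω' ω := fun e he => (h e he).symm

theorem S_sub {ω ω' : Conf} {r : ℤ} (h : Off r ω ω') {v : Vtx} (hv : v ∈ Ret_S ω r) :
    v ∈ Ret_S ω' r := by
  obtain ⟨u, hu, hu0, hp⟩ := hv
  induction hp with
  | refl => exact ⟨u, hu, hu0, Reach.refl _ _⟩
  | @tail w w' h1 hs ih =>
    have h1' : Reach (Ret_O ω) u w' := h1.tail hs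
    obtain ⟨e, he, hc⟩ := hs
    by_cases hb : InBox r e
    · have hw' : sd w' (0, 0) ≤ r := by
        rcases hc with ⟨_, h3⟩ | ⟨h2, _⟩
        · rw [← h3]; exact hb.2
        · rw [← h2]; exact hb.1
      exact ⟨w', hw', Ret_O_nonneg hu0 h1', Reach.refl _ _⟩
    · exact Ret_S_closed ih ⟨e, ⟨he.1, he.2.1, by rw [← h e hb]; exact he.2.2⟩, hc⟩

theorem S_eq {ω ω' : Conf} {r : ℤ} (h : Off r ω ω') : Ret_S ω r = Ret_S ω' r :=
  Set.Subset.antisymm (fun _ hv => S_sub h hv) (fun _ hv => S_sub h.symm hv)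

theorem T_eq {ω ω' : Conf} {r R : ℤ} (h : Off r ω ω') : Ret_T ω r R = Ret_T ω' r R := by
  unfold Ret_T
  rw [S_eq h]

/-- The first state outside. -/
theorem enter {ω : Conf} {r R : ℤ} (hr : 0 ≤ r) (hrR : r < R)
    (hS : ∀ v ∈ Ret_S ω r, sd v (0, 0) < R) {k : ℕ} (hk : (path ω k).1 ∉ Ret_T ω r R)
    (hk' : (path ω (k + 1)).1 ∈ Ret_T ω r R) :
    ∃ x : ℤ, x < 0 ∧ ((x + 1, 0) : Vtx) ∈ Ret_S ω r ∧ ((x, 0) : Vtx) ∈ Ret_T ω r R ∧
      path ω (k + 1) = ((x, 0), .ne) := by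
  have h0 := path_nonneg ω k
  rcases Ret_step_cases (opn ω) (path ω k) with h | ⟨e, he, hc, -⟩
  · rw [← path_succ] at h
    rw [h] at hk'
    exact absurd hk' hk
  rw [← path_succ] at hc
  have he0 : 0 ≤ e.2.1 := Step_opn he
  -- the old vertex is in the cluster
  have hvS : (path ω k).1 ∈ Ret_S ω r := by
    by_contra hv
    apply hk
    obtain ⟨g0, gS, w, hw, hr⟩ := hk'
    refine ⟨h0, hv, w, hw, Reach.trans (Adj.reach ⟨e, ⟨he0, ?_, ?_⟩, hc⟩) hr⟩
    · rcases hc with ⟨h1, h2⟩ | ⟨h1, h2⟩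
      · rw [h1]; exact hv
      · rw [h1]; exact gS
    · rcases hc with ⟨h1, h2⟩ | ⟨h1, h2⟩
      · rw [h2]; exact gS
      · rw [h2]; exact hv
  -- the edge is on the axis
  have hax : e.2.1 = 0 ∧ e.2.2 = true ∧ e.1 < 0 := by
    rcases he with h | h
    · exact h
    · exact absurd (Ret_S_closed hvS ⟨e, h, hc⟩) hk'.2.1
  obtain ⟨x, y, b⟩ := e
  obtain ⟨h1, h2, h3⟩ := hax
  simp only at h1 h2 h3
  subst h1
  subst h2
  rw [src_mk, tgt_true] at hc
  rcases hc with ⟨h4, h5⟩ | ⟨h4, h5⟩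
  · exfalso
    refine Ret_planar hr hrR hS h3 (by rw [h4]; exact hvS) ?_
    rw [h5]; exact hk'
  · refine ⟨x, h3, by rw [h5]; exact hvS, by rw [h4]; exact hk', ?_⟩
    have hst := path_succ ω k
    generalize path ω (k + 1) = σ' at h4 hst hk'
    generalize path ω k = σ at h5 hst
    obtain ⟨⟨a, b⟩, q⟩ := σ
    simp only [Prod.mk.injEq] at h5
    obtain ⟨rfl, rfl⟩ := h5
    subst hst
    cases q
    · simp only [step] at h4 ⊢
      split_ifs at h4 ⊢ with hc <;> simp only [Prod.mk.injEq] at h4 <;> omega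
    · simp only [step] at h4 ⊢
      split_ifs at h4 ⊢ with hc
      · simp
      · simp only [Prod.mk.injEq] at h4; omega
    · simp only [step] at h4 ⊢
      split_ifs at h4 ⊢ with hc <;> simp only [Prod.mk.injEq] at h4 <;> omega
    · simp only [step] at h4 ⊢
      split_ifs at h4 ⊢ with hc <;> simp only [Prod.mk.injEq] at h4 <;> omega

/-- The exit is unique. -/
theorem gate_le {ω : Conf} {r R : ℤ} (hr : 0 ≤ r) (hrR : r < R)
    (hS : ∀ v ∈ Ret_S ω r, sd v (0, 0) < R) {x x' : ℤ}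
    (hx1 : ((x + 1, 0) : Vtx) ∈ Ret_S ω r)
    (hx' : x' < 0) (hx2 : ((x', 0) : Vtx) ∈ Ret_T ω r R) : x' ≤ x := by
  by_contra hlt
  rw [not_le] at hlt
  -- go down from `x'`
  have key : ∀ n : ℕ, ((x' - n, 0) : Vtx) ∈ Ret_T ω r R := by
    intro n
    induction n with
    | zero => simpa using hx2
    | succ n ih =>
      obtain ⟨g0, gS, w, hw, hr'⟩ := ih
      have hb : ((x' - (n + 1 : ℕ), 0) : Vtx) ∉ Ret_S ω r := by
        intro hcon
        refine Ret_planar hr hrR hS (x := x' - (n + 1 : ℕ)) (by push_cast; omega) hcon ?_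
        have : x' - ((n + 1 : ℕ) : ℤ) + 1 = x' - n := by push_cast; ring
        rw [this]
        exact ⟨g0, gS, w, hw, hr'⟩
      refine ⟨le_refl _, hb, w, hw, Reach.trans (Adj.reach
        ⟨(x' - (n + 1 : ℕ), 0, true), ⟨le_refl _, ?_, ?_⟩, Or.inl ⟨rfl, ?_⟩⟩) hr'⟩
      · rw [src_mk]; exact hb
      · rw [tgt_true]
        have : x' - ((n + 1 : ℕ) : ℤ) + 1 = x' - n := by push_cast; ring
        rw [this]; exact gS
      · rw [tgt_true]
        have : x' - ((n + 1 : ℕ) : ℤ) + 1 = x' - n := by push_cast; ring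
        rw [this]
  obtain ⟨n, hn⟩ := Int.le.dest (show x + 1 ≤ x' by omega)
  have h := key n
  have e : x' - (n : ℤ) = x + 1 := by omega
  rw [e] at h
  exact h.2.1 hx1

/-- The number of the states over the half-box. -/
def NN (R : ℕ) : ℕ := (2 * R + 1) * (R + 1) * 4

theorem exists_out (ω : Conf) {r R : ℕ}
    (hS : ∀ v ∈ Ret_S ω r, sd v (0, 0) < R) : ∃ k ≤ NN R, (path ω k).1 ∈ Ret_T ω r R := by
  classical
  by_contra hcon
  push Not at hcon
  have hin : ∀ k ≤ NN R, path ω k ∈ (Finset.Icc (-(R:ℤ)) R ×ˢ Finset.Icc (0:ℤ) R) ×ˢ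
      (Finset.univ : Finset Q4) := by
    intro k hk
    have h1 := hcon k hk
    have h2 : sd (path ω k).1 (0, 0) < R := by
      by_contra h3
      rw [not_lt] at h3
      apply h1
      refine ⟨path_nonneg ω k, fun h => ?_, _, h3, Reach.refl _ _⟩
      have := hS _ h
      omega
    have h4 := path_nonneg ω k
    rw [Ret_sd, max_lt_iff, abs_lt, abs_lt] at h2
    rw [Finset.mem_product, Finset.mem_product, Finset.mem_Icc, Finset.mem_Icc]
    refine ⟨⟨?_, ?_⟩, Finset.mem_univ _⟩ <;> omega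
  have hc := Finset.card_le_card_of_injOn (s := Finset.range (NN R + 1)) (fun k => path ω k)
    (fun k hk => hin k (by rw [Finset.coe_range, Set.mem_Iio] at hk; omega))
    (fun i _ j _ hij => by
      by_contra h
      exact path_inj ω h hij)
  rw [Finset.card_range, Finset.card_product, Finset.card_product, Int.card_Icc, Int.card_Icc,
    Finset.card_univ] at hc
  have h4 : Fintype.card Q4 = 4 := rfl
  rw [h4] at hc
  have e1 : ((R:ℤ) + 1 - -(R:ℤ)).toNat = 2 * R + 1 := by omega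
  have e2 : ((R:ℤ) + 1 - 0).toNat = R + 1 := by omega
  rw [e1, e2] at hc
  unfold NN at hc
  omega

/-- **Coupling.** -/
theorem det {ω ω' : Conf} {r R : ℕ} (hrR : r < R) (hO : Off r ω ω')
    (hS : ∀ v ∈ Ret_S ω r, sd v (0, 0) < R) :
    ∃ τ τ' : ℕ, τ ≤ NN R ∧ τ' ≤ NN R ∧ (∀ j < τ, sd (path ω j).1 (0, 0) < R) ∧
      (∀ j < τ', sd (path ω' j).1 (0, 0) < R) ∧ ∀ k, path ω (τ + k) = path ω' (τ' + k) := by
  classical
  have hrR' : (r : ℤ) < R := by exact_mod_cast hrR
  have hr0 : (0:ℤ) ≤ r := by positivity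
  have hS' : ∀ v ∈ Ret_S ω' r, sd v (0, 0) < R := by
    rw [← S_eq hO]; exact hS
  -- entrance of one path
  have ent : ∀ η : Conf, (∀ v ∈ Ret_S η r, sd v (0, 0) < R) → ∃ τ ≤ NN R, ∃ x : ℤ, x < 0 ∧
      ((x + 1, 0) : Vtx) ∈ Ret_S η r ∧ ((x, 0) : Vtx) ∈ Ret_T η r R ∧
      path η τ = ((x, 0), .ne) ∧ ∀ j < τ, sd (path η j).1 (0, 0) < R := by
    intro η hη
    have hex := exists_out η hη
    have hex' : ∃ k, (path η k).1 ∈ Ret_T η r R := by
      obtain ⟨k, -, hk⟩ := hex; exact ⟨k, hk⟩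
    obtain ⟨k, hkN, hk⟩ := hex
    set τ := Nat.find hex' with hτ
    have h1 : (path η τ).1 ∈ Ret_T η r R := Nat.find_spec hex'
    have h2 : τ ≤ k := Nat.find_min' hex' hk
    have h3 : ∀ j < τ, (path η j).1 ∉ Ret_T η r R := fun j hj => Nat.find_min hex' hj
    have h0 : τ ≠ 0 := by
      intro h0
      rw [h0] at h1
      apply h1.2.1
      exact ⟨(0, 0), by rw [Ret_sd]; simp, le_refl _, Reach.refl _ _⟩
    obtain ⟨m, hm⟩ := Nat.exists_eq_succ_of_ne_zero h0
    rw [Nat.succ_eq_add_one] at hm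
    rw [hm] at h1 h3
    obtain ⟨x, g1, g2, g3, g4⟩ := enter hr0 hrR' hη (h3 m (by omega)) h1
    refine ⟨τ, h2.trans hkN, x, g1, g2, g3, by rw [hm]; exact g4, fun j hj => ?_⟩
    by_contra h5
    rw [not_lt] at h5
    apply h3 j (by omega)
    refine ⟨path_nonneg η j, fun h => ?_, _, h5, Reach.refl _ _⟩
    have := hη _ h
    omega
  obtain ⟨τ, a1, x, a2, a3, a4, a5, a6⟩ := ent ω hS
  obtain ⟨τ', b1, x', b2, b3, b4, b5, b6⟩ := ent ω' hS'
  rw [← S_eq hO] at b3
  rw [← T_eq hO] at b4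
  have hxx : x = x' := by
    apply le_antisymm
    · exact gate_le hr0 hrR' hS b3 a2 a4
    · exact gate_le hr0 hrR' hS a3 b2 b4
  subst hxx
  refine ⟨τ, τ', a1, b1, a6, b6, fun k => ?_⟩
  have hT : ∀ k, (path ω (τ + k)).1 ∈ Ret_T ω r R := by
    intro k
    induction k with
    | zero =>
      rw [Nat.add_zero, a5]
      exact a4
    | succ k ih => exact Ret_step_T ω hr0 hrR' hS ih
  induction k with
  | zero => rw [Nat.add_zero, Nat.add_zero, a5, b5]
  | succ k ih =>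
    show path ω (τ + k + 1) = path ω' (τ' + k + 1)
    rw [path_succ, path_succ, ← ih]
    apply step_congr
    intro e he
    have hnb : ¬ InBox r e := by
      rintro ⟨c1, c2⟩
      have h5 := hT k
      apply h5.2.1
      refine ⟨_, ?_, path_nonneg ω (τ + k), Reach.refl _ _⟩
      rcases he with he | he
      · rw [← he]; exact c1
      · rw [← he]; exact c2
    have h6 := hO e hnb
    unfold opn
    simp only [Set.mem_setOf_eq]
    rw [h6]

end Pool.Agent.Zk72.NE
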