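import Mathlib.Topology.ContinuousMap.Bounded.ArzelaAscoli
import Mathlib.Topology.MetricSpace.Equicontinuity

/-!
A finite net of the set of the `1`-Lipschitz functions with values in `[-1, 1]`, on a compact set.
-/

set_option autoImplicit false

namespace Pool.Agent.Zk72.NE

open Filter Topology BoundedContinuousFunction

/-- `1`-Lipschitz functions with values in `[-1, 1]`. -/
def BL {X : Type*} [PseudoMetricSpace X] (G : X → ℝ) : Prop :=
  (∀ f, |G f| ≤ 1) ∧ LipschitzWith 1 G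

theorem net {X : Type*} [PseudoMetricSpace X] {K : Set X} (hK : IsCompact K) {δ : ℝ}
    (hδ : 0 < δ) : ∃ 𝒢 : Finset (X → ℝ), (∀ H ∈ 𝒢, BL H) ∧
      ∀ G : X → ℝ, BL G → ∃ H ∈ 𝒢, ∀ f ∈ K, |G f - H f| ≤ δ := by
  classical
  have : CompactSpace K := isCompact_iff_compactSpace.1 hK
  set A : Set (K →ᵇ ℝ) := {φ | ∃ G : X → ℝ, BL G ∧ ∀ x : K, φ x = G x} with hA
  have hlip : ∀ φ ∈ A, LipschitzWith 1 (φ : K → ℝ) := by
    rintro φ ⟨G, hG, h⟩
    have : (φ : K → ℝ) = G ∘ Subtype.val := funext h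
    rw [this]
    simpa using hG.2.comp (LipschitzWith.subtype_val K)
  have hcomp : IsCompact (closure A) := by
    refine arzela_ascoli (Set.Icc (-1) 1) isCompact_Icc A ?_ ?_
    · rintro φ x ⟨G, hG, h⟩
      rw [h]
      exact abs_le.1 (hG.1 _)
    · apply Metric.equicontinuous_of_continuity_modulus (fun r => r) tendsto_id
      intro x y φ
      have h1 := (hlip φ.1 φ.2).dist_le_mul x y
      simpa using h1
  have htb : TotallyBounded A := hcomp.totallyBounded.subset subset_closure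
  obtain ⟨t, htA, htf, htc⟩ := totallyBounded_iff_subset.1 htb _ (Metric.dist_mem_uniformity hδ)
  have hch : ∀ φ : K →ᵇ ℝ, ∃ G : X → ℝ, φ ∈ t → BL G ∧ ∀ x : K, φ x = G x := by
    intro φ
    by_cases h : φ ∈ t
    · obtain ⟨G, hG⟩ := htA h
      exact ⟨G, fun _ => hG⟩
    · exact ⟨fun _ => 0, fun h' => absurd h' h⟩
  choose g hg using hch
  refine ⟨htf.toFinset.image g, ?_, ?_⟩
  · intro H hH
    obtain ⟨φ, hφ, rfl⟩ := Finset.mem_image.1 hH
    exact (hg φ (htf.mem_toFinset.1 hφ)).1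
  · intro G hG
    obtain ⟨φ, hφ⟩ : ∃ φ : K →ᵇ ℝ, ∀ x : K, φ x = G x :=
      ⟨BoundedContinuousFunction.mkOfCompact ⟨fun x : K => G x,
        hG.2.continuous.comp continuous_subtype_val⟩, fun x => rfl⟩
    have hφA : φ ∈ A := ⟨G, hG, hφ⟩
    obtain ⟨ψ, hψ, hd⟩ := Set.mem_iUnion₂.1 (htc hφA)
    refine ⟨g ψ, Finset.mem_image.2 ⟨ψ, htf.mem_toFinset.2 hψ, rfl⟩, fun f hf => ?_⟩
    have h1 : dist (φ ⟨f, hf⟩) (ψ ⟨f, hf⟩) ≤ dist φ ψ := dist_coe_le_dist _
    rw [hφ ⟨f, hf⟩, (hg ψ hψ).2 ⟨f, hf⟩, Real.dist_eq] at h1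
    exact h1.trans (le_of_lt hd)

end Pool.Agent.Zk72.NE
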