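import Pool.Agent.Zk72.NE.Vis
import Pool.Agent.Zk72.NE.Net
import Pool.Agent.H984R3.Per.UpPi
import Pool.Agent.H984R3.Per.LowEV
import Pool.Agent.H985R3.TA.Main

/-!
The conditional law of the curve given the configuration off the resampled set is close to the law
of the curve.
-/

set_option autoImplicit false

namespace Pool.Agent.Zk72.NE

open H984H H974 H984P H342P Finset MeasureTheory H389NS H12S Filter Topology

/-- The two-arm bounds. -/
theorem inputs : (∃ c : ℝ, 0 < c ∧ H984P.LowA c (1/4)) ∧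
    (∃ C : ℝ, 0 < C ∧ H342P.TwoUp C (1/4)) := by
  refine ⟨?_, ?_⟩
  · obtain ⟨B, m0, κ, hκ, h⟩ := H985T.EV_lower
    obtain ⟨c, hc, h2⟩ := H984P.lowA_of_EV (B := B) (m0 := m0) (s := 1/4) hκ (by norm_num)
      (fun m hm => by
        obtain ⟨ρ, c, s, c', f0, h1, h2, h3⟩ := h m hm
        exact ⟨ρ, c, s, c', f0, h2, h1, h3⟩)
    exact ⟨c, hc, h2⟩
  · obtain ⟨C, hC, h⟩ := H985T.pi2_upper
    exact ⟨C, hC, H984P.twoUp_of_pi2 hC (by norm_num) h⟩

theorem quench_main {η : ℝ} (hη : 0 < η) :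
    ∃ C0 : ℝ, 0 < C0 ∧ ∀ (n : ℕ) (ε : unitInterval), 1 ≤ n →
      C0 * (n : ℝ) ^ (-(1/14) : ℝ) ≤ ε → ∀ G : C(unitInterval, ℂ) → ℝ, BL G →
      QV n ε G ≤ η := by
  obtain ⟨⟨c, hc, hL⟩, ⟨C, hC, hU⟩⟩ := inputs
  obtain ⟨Cv, hCv, hrev⟩ := rev_quarter
  obtain ⟨C0, hC0, h⟩ := main_quench (by norm_num) hCv hrev hc hC hL hU hη
  refine ⟨C0, hC0, fun n ε hn hε G hG => h n ε hn ?_ G hG.1 hG.2⟩
  have e : (-(2/7 * (1/4)) : ℝ) = -(1/14) := by norm_num
  rw [e]
  exact hε

/-! ### measurability -/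

theorem cut2_meas {β : Type*} [MeasurableSpace β] (ρ : ℤ) (Φ : Finset Edg → Finset Edg → β) :
    Measurable (fun w : Conf × Conf => Φ (cut w.1 ρ) (cut w.2 ρ)) := by
  intro s _
  have h : (fun w : Conf × Conf => Φ (cut w.1 ρ) (cut w.2 ρ)) ⁻¹' s =
      ⋃ T ∈ {T : Finset Edg × Finset Edg | Φ T.1 T.2 ∈ s},
        (({ω : Conf | cut ω ρ = T.1}) ×ˢ {ω : Conf | cut ω ρ = T.2}) := by
    ext w
    simp only [Set.mem_preimage, Set.mem_iUnion, Set.mem_ofPred_eq, exists_prop, Set.mem_prod]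
    constructor
    · intro h
      exact ⟨(cut w.1 ρ, cut w.2 ρ), h, rfl, rfl⟩
    · rintro ⟨T, h1, h2, h3⟩
      rw [h2, h3]; exact h1
  rw [h]
  exact MeasurableSet.biUnion (Set.to_countable _)
    (fun T _ => (Perc_meas_cut ρ T.1).prod (Perc_meas_cut ρ T.2))

theorem mix_meas (u b : Conf) : Measurable (fun c : Conf => mix u b c) := by
  refine measurable_pi_lambda _ fun e => ?_
  unfold mix
  by_cases h : u e = true
  · simp only [h, if_true]
    exact measurable_pi_apply e
  · simp only [h]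
    exact measurable_const

theorem mix_meas3 : Measurable (fun v : (Conf × Conf) × Conf => mix v.1.1 v.1.2 v.2) := by
  refine measurable_pi_lambda _ fun e => ?_
  unfold mix
  refine Measurable.ite ?_ ?_ ?_
  · have : Measurable (fun v : (Conf × Conf) × Conf => v.1.1 e) :=
      (measurable_pi_apply e).comp (measurable_fst.comp measurable_fst)
    exact this (measurableSet_singleton true)
  · exact (measurable_pi_apply e).comp measurable_snd
  · exact (measurable_pi_apply e).comp (measurable_snd.comp measurable_fst)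

/-- The conditional expectation. -/
noncomputable def Qm (n : ℕ) (G : C(unitInterval, ℂ) → ℝ) (w : Conf × Conf) : ℝ :=
  ∫ c, G (curve n (mix w.1 w.2 c)) ∂perc

theorem Qm_eq {n : ℕ} {ρ : ℤ} (hρ : (n : ℤ) < ρ) (G : C(unitInterval, ℂ) → ℝ) (w : Conf × Conf) :
    Qm n G w = (fun U B => Ex hp U (fun Y => G (curve n (cf ((B \ U) ∪ Y))))) (cut w.1 ρ)
      (cut w.2 ρ) := by
  unfold Qm
  have h := int_c ρ (fun F => G (curve n (cf F))) w.1 w.2
  simp only [curve_cut hρ] at h
  exact h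

theorem Qm_meas (n : ℕ) (G : C(unitInterval, ℂ) → ℝ) : Measurable (Qm n G) := by
  have : Qm n G = fun w => (fun U B => Ex hp U (fun Y => G (curve n (cf ((B \ U) ∪ Y)))))
      (cut w.1 (n + 1)) (cut w.2 (n + 1)) := by
    funext w
    exact Qm_eq (by omega) G w
  rw [this]
  exact cut2_meas ((n : ℤ) + 1) (fun U B => Ex hp U (fun Y => G (curve n (cf ((B \ U) ∪ Y)))))

theorem abs_int_le {Ω : Type*} [MeasurableSpace Ω] {μ : Measure Ω} [IsProbabilityMeasure μ]
    {f : Ω → ℝ} {C : ℝ} (h : ∀ x, |f x| ≤ C) : |∫ x, f x ∂μ| ≤ C := by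
  have h1 := norm_integral_le_of_norm_le_const (μ := μ) (f := f) (C := C)
    (Eventually.of_forall fun x => by rw [Real.norm_eq_abs]; exact h x)
  rw [Real.norm_eq_abs] at h1
  simpa using h1

theorem Qm_bd {n : ℕ} {G : C(unitInterval, ℂ) → ℝ} (hb : ∀ f, |G f| ≤ 1) (w : Conf × Conf) :
    |Qm n G w| ≤ 1 := abs_int_le (fun _ => hb _)

/-- The mean of the conditional expectations. -/
theorem Qm_mean {n : ℕ} {G : C(unitInterval, ℂ) → ℝ} (ε : unitInterval) (hb : ∀ f, |G f| ≤ 1) :
    ∫ w, Qm n G w ∂((mask ε).prod perc) = ∫ ω, G (curve n ω) ∂perc := by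
  have hρ : (n : ℤ) < (n : ℤ) + 1 := by omega
  rw [integral_prod _ (Integrable.of_bound (C := 1) (Qm_meas n G).aestronglyMeasurable
    (Eventually.of_forall fun w => by rw [Real.norm_eq_abs]; exact Qm_bd hb w))]
  have h1 : ∀ u : Conf, ∫ b, Qm n G (u, b) ∂perc = ∫ ω, G (curve n ω) ∂perc := by
    intro u
    have e1 : ∀ b : Conf, Qm n G (u, b) =
        (fun B => Ex hp (cut u (n + 1)) (fun Y => G (curve n (cf ((B \ cut u (n + 1)) ∪ Y)))))
          (cut b (n + 1)) := fun b => Qm_eq hρ G (u, b)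
    have e2 : ∀ ω : Conf, G (curve n ω) = (fun F => G (curve n (cf F))) (cut ω (n + 1)) := by
      intro ω
      simp only [curve_cut hρ]
    rw [integral_congr_ae (Eventually.of_forall e1), integral_congr_ae (Eventually.of_forall e2),
      perc_cut_int ((n:ℤ) + 1) (fun B => Ex hp (cut u (n + 1)) (fun Y =>
        G (curve n (cf ((B \ cut u (n + 1)) ∪ Y))))),
      perc_cut_int ((n:ℤ) + 1) (fun F => G (curve n (cf F)))]
    show Ex hp _ _ = Ex hp _ _
    rw [Ex_split (Perc_cut_sub u (n + 1)) (fun F => G (curve n (cf F))),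
      Ex_split (Perc_cut_sub u (n + 1))]
    refine Ex_congr fun G' hG' => ?_
    rw [← Ex_const hp (cut u (n + 1)) (Ex hp (cut u (n + 1)) (fun Y =>
      G (curve n (cf (G' ∪ Y)))))]
    refine Ex_congr fun Y hY => Ex_congr fun Y' _ => ?_
    have e3 : (G' ∪ Y) \ cut u (n + 1) = G' := by
      rw [Finset.union_sdiff_distrib, Finset.sdiff_eq_empty_iff_subset.2 hY, Finset.union_empty]
      exact Finset.sdiff_eq_self_of_disjoint (Finset.disjoint_of_subset_left hG'
        Finset.sdiff_disjoint)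
    rw [e3]
  simp only [h1, integral_const, probReal_univ, one_smul]

theorem QV_prod {n : ℕ} {G : C(unitInterval, ℂ) → ℝ} (ε : unitInterval) (hb : ∀ f, |G f| ≤ 1) :
    ∫ w, (Qm n G w - ∫ ω, G (curve n ω) ∂perc) ^ 2 ∂((mask ε).prod perc) = QV n ε G := by
  have h2 : |∫ ω, G (curve n ω) ∂perc| ≤ 1 := abs_int_le (fun _ => hb _)
  rw [integral_prod _ (Integrable.of_bound (C := 4)
    (((Qm_meas n G).sub_const _).pow_const 2).aestronglyMeasurable
    (Eventually.of_forall fun w => by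
      have h1 := abs_le.1 (Qm_bd (n := n) hb w)
      have h3 := abs_le.1 h2
      rw [Real.norm_eq_abs, abs_of_nonneg (sq_nonneg _)]
      nlinarith))]
  rfl

/-- Chebyshev. -/
theorem cheb {n : ℕ} {G : C(unitInterval, ℂ) → ℝ} (ε : unitInterval) (hb : ∀ f, |G f| ≤ 1)
    {δ : ℝ} (hδ : 0 < δ) :
    ((mask ε).prod perc).real {w | δ < |Qm n G w - ∫ ω, G (curve n ω) ∂perc|} ≤
      QV n ε G / δ ^ 2 := by
  have h2 : |∫ ω, G (curve n ω) ∂perc| ≤ 1 := abs_int_le (fun _ => hb _)
  rw [le_div_iff₀ (by positivity), ← QV_prod ε hb]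
  have h1 := mul_meas_ge_le_integral_of_nonneg (μ := (mask ε).prod perc)
    (f := fun w => (Qm n G w - ∫ ω, G (curve n ω) ∂perc) ^ 2)
    (Eventually.of_forall fun w => sq_nonneg _)
    (Integrable.of_bound (C := 4)
      (((Qm_meas n G).sub_const _).pow_const 2).aestronglyMeasurable
      (Eventually.of_forall fun w => by
        have h1 := abs_le.1 (Qm_bd (n := n) hb w)
        have h3 := abs_le.1 h2
        rw [Real.norm_eq_abs, abs_of_nonneg (sq_nonneg _)]
        nlinarith)) (δ ^ 2)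
  refine le_trans ?_ h1
  rw [mul_comm]
  refine mul_le_mul_of_nonneg_left ?_ (sq_nonneg _)
  apply measureReal_mono
  · intro w hw
    simp only [Set.mem_ofPred_eq] at hw ⊢
    rw [← sq_abs (Qm n G w - _)]
    exact pow_le_pow_left₀ hδ.le hw.le 2
  · exact measure_ne_top _ _

/-- The indicator of the complement of a set. -/
noncomputable def out (K : Set C(unitInterval, ℂ)) (f : C(unitInterval, ℂ)) : ℝ :=
  Set.indicator Kᶜ (fun _ => (1:ℝ)) f

theorem out_meas {K : Set C(unitInterval, ℂ)} (hK : MeasurableSet K) : Measurable (out K) :=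
  measurable_const.indicator hK.compl

theorem out_bd (K : Set C(unitInterval, ℂ)) (f : C(unitInterval, ℂ)) : |out K f| ≤ 1 := by
  unfold out
  by_cases h : f ∈ Kᶜ
  · rw [Set.indicator_of_mem h]; simp
  · rw [Set.indicator_of_notMem h]; simp

theorem out_nonneg (K : Set C(unitInterval, ℂ)) (f : C(unitInterval, ℂ)) : 0 ≤ out K f := by
  unfold out
  exact Set.indicator_nonneg (fun _ _ => by norm_num) _

theorem int_close {Ω : Type*} [MeasurableSpace Ω] {μ : Measure Ω} [IsProbabilityMeasure μ]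
    {X : Ω → C(unitInterval, ℂ)} (hX : Measurable X) {K : Set C(unitInterval, ℂ)}
    (hK : MeasurableSet K) {G H : C(unitInterval, ℂ) → ℝ} (hG : BL G) (hH : BL H) {δ : ℝ}
    (hδ : 0 ≤ δ) (h : ∀ f ∈ K, |G f - H f| ≤ δ) :
    |(∫ x, G (X x) ∂μ) - ∫ x, H (X x) ∂μ| ≤ δ + 2 * ∫ x, out K (X x) ∂μ := by
  have iG : Integrable (fun x => G (X x)) μ :=
    Integrable.of_bound (C := 1) (hG.2.continuous.measurable.comp hX).aestronglyMeasurable
      (Eventually.of_forall fun c => by rw [Real.norm_eq_abs]; exact hG.1 _)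
  have iH : Integrable (fun x => H (X x)) μ :=
    Integrable.of_bound (C := 1) (hH.2.continuous.measurable.comp hX).aestronglyMeasurable
      (Eventually.of_forall fun c => by rw [Real.norm_eq_abs]; exact hH.1 _)
  have iO : Integrable (fun x => out K (X x)) μ :=
    Integrable.of_bound (C := 1) ((out_meas hK).comp hX).aestronglyMeasurable
      (Eventually.of_forall fun c => by rw [Real.norm_eq_abs]; exact out_bd K _)
  rw [← integral_sub iG iH]
  refine (abs_integral_le_integral_abs).trans ?_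
  have h1 : ∫ x, |G (X x) - H (X x)| ∂μ ≤ ∫ x, (δ + 2 * out K (X x)) ∂μ := by
    refine integral_mono (iG.sub iH).abs ((integrable_const _).add (iO.const_mul 2)) ?_
    intro x
    simp only
    by_cases hx : X x ∈ K
    · have h2 := h _ hx
      have h3 := out_nonneg K (X x)
      linarith
    · have h2 : out K (X x) = 1 := by
        unfold out
        rw [Set.indicator_of_mem (show X x ∈ Kᶜ from hx)]
      rw [h2]
      have h3 := abs_le.1 (hG.1 (X x))
      have h4 := abs_le.1 (hH.1 (X x))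
      rw [abs_le]
      constructor <;> linarith
  rw [integral_add (integrable_const _) (iO.const_mul 2), integral_const_mul] at h1
  simpa using h1

/-- **The conditional law given the configuration off the resampled set.** -/
theorem cond_law {η : ℝ} (hη : 0 < η) :
    ∃ C0 : ℝ, 0 < C0 ∧ ∀ (n : ℕ) (ε : unitInterval), 1 ≤ n →
      C0 * (n : ℝ) ^ (-(1/14) : ℝ) ≤ ε →
      ((mask ε).prod perc).real {w | ∃ G : C(unitInterval, ℂ) → ℝ, BL G ∧
        η < |(∫ c, G (curve n (mix w.1 w.2 c)) ∂perc) - ∫ ω, G (curve n ω) ∂perc|} ≤ η := by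
  obtain ⟨⟨c, hc, hL⟩, ⟨C, hC, hU⟩⟩ := inputs
  obtain ⟨ε1, hε1, hε1a, hε1b⟩ : ∃ ε1 : ℝ, 0 < ε1 ∧ ε1 ≤ η/16 ∧ ε1 / (η/16) ≤ η/4 := by
    refine ⟨min (η/16) (η ^ 2 / 64), by positivity, min_le_left _ _, ?_⟩
    rw [div_le_iff₀ (by positivity)]
    refine (min_le_right _ _).trans (le_of_eq ?_)
    ring
  obtain ⟨Λ, hΛ, htight⟩ := tight_curve hc hC hL hU (β := 1/2) (by norm_num) (by norm_num) hε1
  have hKc : IsCompact (GoodC (1/2) Λ) := goodC_compact (by norm_num) hΛ
  have hKm : MeasurableSet (GoodC (1/2) Λ) := hKc.isClosed.measurableSet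
  set K := GoodC (1/2) Λ with hK
  obtain ⟨𝒢, h𝒢, hnet⟩ := net hKc (show 0 < η/8 by positivity)
  obtain ⟨C0, hC0, hmain⟩ := quench_main (η := (η/8) ^ 2 * (η/2) / (𝒢.card + 1)) (by positivity)
  refine ⟨C0, hC0, fun n ε hn hε => ?_⟩
  set μ := (mask ε).prod perc with hμ
  -- the mass off `K`
  have hout : ∫ ω, out K (curve n ω) ∂perc ≤ ε1 := by
    have h1 : ∫ ω, out K (curve n ω) ∂perc = perc.real {ω | curve n ω ∉ K} := by
      have h2 : MeasurableSet {ω : Conf | curve n ω ∉ K} := (curve_meas n) hKm.compl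
      rw [← integral_indicator_one h2]
      rfl
    rw [h1]
    exact htight n hn
  have hP1 : μ.real {w | η/16 < Qm n (out K) w} ≤ η/4 := by
    refine le_trans ?_ hε1b
    rw [le_div_iff₀ (by positivity)]
    have h1 := mul_meas_ge_le_integral_of_nonneg (μ := μ) (f := Qm n (out K))
      (Eventually.of_forall fun w => integral_nonneg (fun c => out_nonneg K _))
      (Integrable.of_bound (C := 1) (Qm_meas n (out K)).aestronglyMeasurable
        (Eventually.of_forall fun w => by rw [Real.norm_eq_abs]; exact Qm_bd (out_bd K) w))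
      (η/16)
    rw [hμ, Qm_mean ε (out_bd K)] at h1
    refine le_trans ?_ (h1.trans hout)
    rw [mul_comm]
    refine mul_le_mul_of_nonneg_left ?_ (by positivity)
    apply measureReal_mono
    · intro w hw
      simp only [Set.mem_ofPred_eq] at hw ⊢
      exact hw.le
    · exact measure_ne_top _ _
  have hP2 : μ.real (⋃ H ∈ 𝒢, {w | η/8 < |Qm n H w - ∫ ω, H (curve n ω) ∂perc|}) ≤ η/2 := by
    refine (measureReal_biUnion_finset_le 𝒢 _).trans ?_
    have h1 : ∀ H ∈ 𝒢, μ.real {w | η/8 < |Qm n H w - ∫ ω, H (curve n ω) ∂perc|} ≤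
        (η/2) / (𝒢.card + 1) := by
      intro H hH
      refine (cheb ε (h𝒢 H hH).1 (show 0 < η/8 by positivity)).trans ?_
      rw [div_le_iff₀ (by positivity)]
      refine (hmain n ε hn hε H (h𝒢 H hH)).trans (le_of_eq ?_)
      ring
    refine (Finset.sum_le_sum h1).trans ?_
    rw [Finset.sum_const, nsmul_eq_mul, mul_div_assoc', div_le_iff₀ (by positivity)]
    nlinarith
  have hsub : {w : Conf × Conf | ∃ G : C(unitInterval, ℂ) → ℝ, BL G ∧
      η < |(∫ c, G (curve n (mix w.1 w.2 c)) ∂perc) - ∫ ω, G (curve n ω) ∂perc|} ⊆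
      {w | η/16 < Qm n (out K) w} ∪
        (⋃ H ∈ 𝒢, {w | η/8 < |Qm n H w - ∫ ω, H (curve n ω) ∂perc|}) := by
    rintro w ⟨G, hG, hw⟩
    by_contra hcon
    rw [Set.mem_union, not_or] at hcon
    obtain ⟨c1, c2⟩ := hcon
    simp only [Set.mem_ofPred_eq, not_lt, Set.mem_iUnion, exists_prop, not_exists, not_and] at c1 c2
    obtain ⟨H, hH, hGH⟩ := hnet G hG
    have a1 := int_close (μ := perc) ((curve_meas n).comp (mix_meas w.1 w.2)) hKm hG (h𝒢 H hH)
      (show 0 ≤ η/8 by positivity) hGH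
    have a2 := int_close (μ := perc) (curve_meas n) hKm hG (h𝒢 H hH)
      (show 0 ≤ η/8 by positivity) hGH
    have a3 := c2 H hH
    unfold Qm at c1 a3
    simp only [Function.comp_apply] at a1
    have b1 := abs_le.1 a1
    have b2 := abs_le.1 a2
    have b3 := abs_le.1 a3
    apply absurd hw
    rw [not_lt, abs_le]
    constructor <;> linarith
  have h3 := (measureReal_mono (μ := μ) hsub (measure_ne_top _ _)).trans
    (measureReal_union_le _ _)
  linarith

end Pool.Agent.Zk72.NE
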