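import Pool.Agent.Zk72.NE.Fin
import Mathlib.MeasureTheory.Measure.FiniteMeasureProd

/-!
The joint law of the curves of a configuration and of its noised version, and the scaling limits.
-/

set_option autoImplicit false

namespace Pool.Agent.Zk72.NE

open H984H H974 H984P H342P Finset MeasureTheory H389NS H12S Filter Topology

/-- The two curves. -/
noncomputable def pair (n : ℕ) (v : (Conf × Conf) × Conf) :
    C(unitInterval, ℂ) × C(unitInterval, ℂ) :=
  (curve n v.1.2, curve n (mix v.1.1 v.1.2 v.2))

theorem pair_meas (n : ℕ) : Measurable (pair n) :=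
  ((curve_meas n).comp (measurable_snd.comp measurable_fst)).prodMk
    ((curve_meas n).comp mix_meas3)

theorem BL_sec {F : C(unitInterval, ℂ) × C(unitInterval, ℂ) → ℝ} (hF : BL F)
    (f : C(unitInterval, ℂ)) : BL (fun g => F (f, g)) := by
  refine ⟨fun g => hF.1 _, ?_⟩
  refine LipschitzWith.of_dist_le_mul fun g g' => ?_
  have h := hF.2.dist_le_mul (f, g) (f, g')
  rw [Prod.dist_eq] at h
  simpa using h

theorem joint_law {η : ℝ} (hη : 0 < η) :
    ∃ C0 : ℝ, 0 < C0 ∧ ∀ (n : ℕ) (ε : unitInterval), 1 ≤ n →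
      C0 * (n : ℝ) ^ (-(1/14) : ℝ) ≤ ε →
      ∀ F : C(unitInterval, ℂ) × C(unitInterval, ℂ) → ℝ, BL F →
        |(∫ v, F (pair n v) ∂(((mask ε).prod perc).prod perc)) -
          ∫ w, F (curve n w.1, curve n w.2) ∂(perc.prod perc)| ≤ η := by
  obtain ⟨C0, hC0, hmain⟩ := cond_law (η := η/3) (by positivity)
  refine ⟨C0, hC0, fun n ε hn hε F hF => ?_⟩
  have hbad := hmain n ε hn hε
  set μ := (mask ε).prod perc with hμ
  have hFm : Measurable F := hF.2.continuous.measurable
  have m1 : Measurable (fun v : (Conf × Conf) × Conf => F (pair n v)) := hFm.comp (pair_meas n)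
  have m2 : Measurable (fun w : Conf × Conf => F (curve n w.1, curve n w.2)) :=
    hFm.comp (((curve_meas n).comp measurable_fst).prodMk ((curve_meas n).comp measurable_snd))
  have m3 : Measurable (fun v : (Conf × Conf) × Conf => F (curve n v.1.2, curve n v.2)) :=
    hFm.comp (((curve_meas n).comp (measurable_snd.comp measurable_fst)).prodMk
      ((curve_meas n).comp measurable_snd))
  have hb : ∀ p, ‖F p‖ ≤ 1 := fun p => by rw [Real.norm_eq_abs]; exact hF.1 p
  have i1 : Integrable (fun v => F (pair n v)) (μ.prod perc) :=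
    Integrable.of_bound (C := 1) m1.aestronglyMeasurable (Eventually.of_forall fun v => hb _)
  have i2 : Integrable (fun w : Conf × Conf => F (curve n w.1, curve n w.2))
      (perc.prod perc) :=
    Integrable.of_bound (C := 1) m2.aestronglyMeasurable (Eventually.of_forall fun v => hb _)
  set A : Conf × Conf → ℝ := fun w => ∫ c, F (pair n (w, c)) ∂perc with hA
  set B : Conf × Conf → ℝ := fun w => ∫ c, F (curve n w.2, curve n c) ∂perc with hB
  have mA : Measurable A := m1.stronglyMeasurable.integral_prod_right'.measurable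
  have mB : Measurable B := m3.stronglyMeasurable.integral_prod_right'.measurable
  have bA : ∀ w, |A w| ≤ 1 := fun w => abs_int_le (fun _ => hF.1 _)
  have bB : ∀ w, |B w| ≤ 1 := fun w => abs_int_le (fun _ => hF.1 _)
  have iA : Integrable A μ := Integrable.of_bound (C := 1) mA.aestronglyMeasurable
    (Eventually.of_forall fun w => by rw [Real.norm_eq_abs]; exact bA w)
  have iB : Integrable B μ := Integrable.of_bound (C := 1) mB.aestronglyMeasurable
    (Eventually.of_forall fun w => by rw [Real.norm_eq_abs]; exact bB w)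
  have e1 : ∫ v, F (pair n v) ∂(μ.prod perc) = ∫ w, A w ∂μ := integral_prod _ i1
  have e2 : ∫ w, F (curve n w.1, curve n w.2) ∂(perc.prod perc) = ∫ w, B w ∂μ := by
    rw [integral_prod _ i2, hμ, integral_prod _ iB]
    simp [hB]
  rw [e1, e2, ← integral_sub iA iB]
  have hZ : MeasurableSet {w | η/3 < |A w - B w|} := measurableSet_lt measurable_const
    (mA.sub mB).abs
  refine (abs_integral_le_integral_abs).trans ?_
  have h1 : ∫ w, |A w - B w| ∂μ ≤
      ∫ w, (η/3 + 2 * Set.indicator {w | η/3 < |A w - B w|} (fun _ => (1:ℝ)) w) ∂μ := by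
    refine integral_mono (iA.sub iB).abs ((integrable_const _).add
      (((integrable_const _).indicator hZ).const_mul 2)) ?_
    intro w
    simp only
    by_cases h : w ∈ {w | η/3 < |A w - B w|}
    · rw [Set.indicator_of_mem h]
      have h3 := abs_le.1 (bA w)
      have h4 := abs_le.1 (bB w)
      have h5 : |A w - B w| ≤ 2 := by
        rw [abs_le]
        constructor <;> linarith
      linarith
    · rw [Set.indicator_of_notMem h]
      simp only [Set.mem_ofPred_eq, not_lt] at h
      linarith
  refine h1.trans ?_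
  rw [integral_add (integrable_const _) (((integrable_const _).indicator hZ).const_mul 2),
    integral_const_mul, integral_indicator_const _ hZ, integral_const]
  have h2 : μ.real {w | η/3 < |A w - B w|} ≤ η/3 := by
    refine (measureReal_mono ?_ (measure_ne_top _ _)).trans hbad
    intro w hw
    exact ⟨fun g => F (curve n w.2, g), BL_sec hF _, hw⟩
  simp only [probReal_univ, smul_eq_mul, one_mul, mul_one]
  linarith

/-- The joint law. -/
noncomputable def lawJ (n : ℕ) (ε : unitInterval) :
    ProbabilityMeasure (C(unitInterval, ℂ) × C(unitInterval, ℂ)) :=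
  ⟨(((mask ε).prod perc).prod perc).map (pair n),
    Measure.isProbabilityMeasure_map (pair_meas n).aemeasurable⟩

theorem lawJ_int (n : ℕ) (ε : unitInterval) {F : C(unitInterval, ℂ) × C(unitInterval, ℂ) → ℝ}
    (hF : Continuous F) :
    ∫ p, F p ∂(lawJ n ε : Measure (C(unitInterval, ℂ) × C(unitInterval, ℂ))) =
      ∫ v, F (pair n v) ∂(((mask ε).prod perc).prod perc) := by
  show ∫ p, F p ∂((((mask ε).prod perc).prod perc).map (pair n)) = _
  rw [integral_map (pair_meas n).aemeasurable hF.aestronglyMeasurable]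

theorem lawH_prod_int (n : ℕ) {F : C(unitInterval, ℂ) × C(unitInterval, ℂ) → ℝ}
    (hF : Continuous F) :
    ∫ p, F p ∂((lawH n).prod (lawH n) : Measure (C(unitInterval, ℂ) × C(unitInterval, ℂ))) =
      ∫ w, F (curve n w.1, curve n w.2) ∂(perc.prod perc) := by
  have e : ((lawH n).prod (lawH n) : Measure (C(unitInterval, ℂ) × C(unitInterval, ℂ))) =
      (perc.prod perc).map (Prod.map (curve n) (curve n)) := by
    rw [ProbabilityMeasure.toMeasure_prod]
    show (perc.map (curve n)).prod (perc.map (curve n)) = _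
    rw [Measure.map_prod_map _ _ (curve_meas n) (curve_meas n)]
  rw [e, integral_map ((curve_meas n).prodMap (curve_meas n)).aemeasurable
    hF.aestronglyMeasurable]
  rfl

/-- Bounded Lipschitz functions are multiples of functions of the class `BL`, up to constants. -/
theorem scale {X : Type*} [PseudoMetricSpace X] {f : X → ℝ} {C : ℝ}
    (hb : ∀ x y, dist (f x) (f y) ≤ C) {L : NNReal} (hL : LipschitzWith L f) :
    ∃ (a k : ℝ) (G : X → ℝ), BL G ∧ 0 < k ∧ ∀ x, f x = a + k * G x := by
  by_cases hX : Nonempty X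
  · obtain ⟨x0⟩ := hX
    have hk : 0 < |C| + L + 1 := by positivity
    refine ⟨f x0, |C| + L + 1, fun x => (f x - f x0) / (|C| + L + 1), ⟨fun x => ?_, ?_⟩, hk,
      fun x => ?_⟩
    · rw [abs_div, abs_of_pos hk, div_le_one hk, ← Real.dist_eq]
      have := hb x x0
      have h1 := le_abs_self C
      have h2 : (0:ℝ) ≤ L := L.2
      linarith
    · refine LipschitzWith.of_dist_le_mul fun x y => ?_
      have h := hL.dist_le_mul x y
      rw [Real.dist_eq] at h
      rw [Real.dist_eq, ← sub_div, abs_div, abs_of_pos hk, div_le_iff₀ hk]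
      have e : f x - f x0 - (f y - f x0) = f x - f y := by ring
      rw [e]
      refine h.trans ?_
      simp only [NNReal.coe_one, one_mul]
      have h1 := abs_nonneg C
      have h2 : 0 ≤ dist x y := dist_nonneg
      nlinarith
    · field_simp
      ring
  · refine ⟨0, 1, fun _ => 0, ⟨fun _ => by simp, ?_⟩, one_pos, fun x => absurd ⟨x⟩ hX⟩
    exact LipschitzWith.of_dist_le_mul fun x y => by simp

/-- Convergence in law with the functions of the class `BL`. -/
theorem tendsto_BL {Ω : Type*} [MeasurableSpace Ω] [PseudoMetricSpace Ω] [OpensMeasurableSpace Ω]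
    {νs : ℕ → ProbabilityMeasure Ω} {ν : ProbabilityMeasure Ω} :
    Tendsto νs atTop (𝓝 ν) ↔ ∀ G : Ω → ℝ, BL G →
      Tendsto (fun i => ∫ x, G x ∂(νs i : Measure Ω)) atTop (𝓝 (∫ x, G x ∂(ν : Measure Ω))) := by
  rw [tendsto_iff_forall_lipschitz_integral_tendsto]
  constructor
  · intro h G hG
    refine h G ⟨2, fun x y => ?_⟩ ⟨1, hG.2⟩
    rw [Real.dist_eq]
    have h1 := abs_le.1 (hG.1 x)
    have h2 := abs_le.1 (hG.1 y)
    rw [abs_le]
    constructor <;> linarith
  · rintro h f ⟨C, hC⟩ ⟨L, hL⟩
    obtain ⟨a, k, G, hG, -, hf⟩ := scale hC hL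
    have hint : ∀ κ : ProbabilityMeasure Ω, ∫ x, f x ∂(κ : Measure Ω) =
        a + k * ∫ x, G x ∂(κ : Measure Ω) := by
      intro κ
      have iG : Integrable G (κ : Measure Ω) :=
        Integrable.of_bound (C := 1) hG.2.continuous.measurable.aestronglyMeasurable
          (Eventually.of_forall fun v => by rw [Real.norm_eq_abs]; exact hG.1 _)
      rw [integral_congr_ae (Eventually.of_forall hf),
        integral_add (integrable_const _) (iG.const_mul k), integral_const_mul]
      simp
    simp only [hint]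
    exact (tendsto_const_nhds).add ((h G hG).const_mul k)

theorem eventually_noise {n : ℕ → ℕ} {ε : ℕ → unitInterval} (hn : Tendsto n atTop atTop)
    (hε : Tendsto (fun i => (ε i : ℝ) * (n i : ℝ) ^ (1/14 : ℝ)) atTop atTop) (C0 : ℝ) :
    ∀ᶠ i in atTop, 1 ≤ n i ∧ C0 * (n i : ℝ) ^ (-(1/14) : ℝ) ≤ ε i := by
  filter_upwards [hn.eventually_ge_atTop 1, hε.eventually_ge_atTop C0] with i h1 h2
  refine ⟨h1, ?_⟩
  have h0 : (0:ℝ) < n i := by exact_mod_cast h1
  rw [Real.rpow_neg h0.le, ← div_eq_mul_inv, div_le_iff₀ (by positivity)]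
  exact h2

/-- The scaling limits of the joint law. -/
theorem limit_joint {n : ℕ → ℕ} {ε : ℕ → unitInterval} (hn : Tendsto n atTop atTop)
    (hε : Tendsto (fun i => (ε i : ℝ) * (n i : ℝ) ^ (1/14 : ℝ)) atTop atTop)
    (μ : ProbabilityMeasure C(unitInterval, ℂ)) :
    Tendsto (fun i => lawH (n i)) atTop (𝓝 μ) ↔
      Tendsto (fun i => lawJ (n i) (ε i)) atTop (𝓝 (μ.prod μ)) := by
  constructor
  · intro h
    have h1 : Tendsto (fun i => (lawH (n i)).prod (lawH (n i))) atTop (𝓝 (μ.prod μ)) := by
      have h2 := (ProbabilityMeasure.continuous_prod (α := C(unitInterval, ℂ))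
        (β := C(unitInterval, ℂ))).tendsto (μ, μ)
      exact h2.comp (h.prodMk_nhds h)
    rw [tendsto_BL] at h1 ⊢
    intro F hF
    have h3 := h1 F hF
    have h4 : Tendsto (fun i => (∫ p, F p ∂(lawJ (n i) (ε i) :
        Measure (C(unitInterval, ℂ) × C(unitInterval, ℂ)))) -
        ∫ p, F p ∂((lawH (n i)).prod (lawH (n i)) :
          Measure (C(unitInterval, ℂ) × C(unitInterval, ℂ)))) atTop (𝓝 0) := by
      rw [Metric.tendsto_atTop]
      intro η hη
      obtain ⟨C0, hC0, hj⟩ := joint_law (η := η/2) (by positivity)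
      obtain ⟨N, hN⟩ := eventually_atTop.1 (eventually_noise hn hε C0)
      refine ⟨N, fun i hi => ?_⟩
      obtain ⟨a1, a2⟩ := hN i hi
      have h5 := hj (n i) (ε i) a1 a2 F hF
      rw [Real.dist_eq, sub_zero, lawJ_int _ _ hF.2.continuous, lawH_prod_int _ hF.2.continuous]
      linarith
    have h5 := h4.add h3
    simpa using h5
  · intro h
    rw [tendsto_BL] at h ⊢
    intro G hG
    have hF : BL (fun p : C(unitInterval, ℂ) × C(unitInterval, ℂ) => G p.1) := by
      refine ⟨fun p => hG.1 _, LipschitzWith.of_dist_le_mul fun p q => ?_⟩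
      refine (hG.2.dist_le_mul p.1 q.1).trans ?_
      rw [Prod.dist_eq]
      simp
    have h1 := h _ hF
    have e1 : ∀ i, ∫ p, G p.1 ∂(lawJ (n i) (ε i) :
        Measure (C(unitInterval, ℂ) × C(unitInterval, ℂ))) =
        ∫ x, G x ∂(lawH (n i) : Measure C(unitInterval, ℂ)) := by
      intro i
      rw [lawJ_int _ _ hF.2.continuous, lawH_int _ hG.2.continuous]
      unfold pair
      simp only
      have i1 : Integrable (fun v : (Conf × Conf) × Conf => G (curve (n i) v.1.2))
          (((mask (ε i)).prod perc).prod perc) :=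
        Integrable.of_bound (C := 1) (hG.2.continuous.measurable.comp ((curve_meas (n i)).comp
          (measurable_snd.comp measurable_fst))).aestronglyMeasurable
          (Eventually.of_forall fun v => by rw [Real.norm_eq_abs]; exact hG.1 _)
      rw [integral_prod _ i1]
      simp only [integral_const, probReal_univ, one_smul]
      have i2 : Integrable (fun w : Conf × Conf => G (curve (n i) w.2))
          ((mask (ε i)).prod perc) :=
        Integrable.of_bound (C := 1) (hG.2.continuous.measurable.comp ((curve_meas (n i)).comp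
          measurable_snd)).aestronglyMeasurable
          (Eventually.of_forall fun v => by rw [Real.norm_eq_abs]; exact hG.1 _)
      rw [integral_prod _ i2]
      simp
    have e2 : ∫ p, G p.1 ∂((μ.prod μ : ProbabilityMeasure _) :
        Measure (C(unitInterval, ℂ) × C(unitInterval, ℂ))) =
        ∫ x, G x ∂(μ : Measure C(unitInterval, ℂ)) := by
      rw [ProbabilityMeasure.toMeasure_prod]
      have i1 : Integrable (fun p : C(unitInterval, ℂ) × C(unitInterval, ℂ) => G p.1)
          ((μ : Measure C(unitInterval, ℂ)).prod (μ : Measure C(unitInterval, ℂ))) :=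
        Integrable.of_bound (C := 1) (hG.2.continuous.measurable.comp
          measurable_fst).aestronglyMeasurable
          (Eventually.of_forall fun v => by rw [Real.norm_eq_abs]; exact hG.1 _)
      rw [integral_prod _ i1]
      simp
    simp only [e1, e2] at h1
    exact h1

/-- The scaling limits of the conditional laws. -/
theorem limit_quench {n : ℕ → ℕ} {ε : ℕ → unitInterval} (hn : Tendsto n atTop atTop)
    (hε : Tendsto (fun i => (ε i : ℝ) * (n i : ℝ) ^ (1/14 : ℝ)) atTop atTop)
    (μ : ProbabilityMeasure C(unitInterval, ℂ)) :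
    Tendsto (fun i => lawH (n i)) atTop (𝓝 μ) ↔
      ∀ G : C(unitInterval, ℂ) → ℝ, BL G →
        Tendsto (fun i => ∫ w, |(∫ c, G (curve (n i) (mix w.1 w.2 c)) ∂perc) -
          ∫ f, G f ∂(μ : Measure C(unitInterval, ℂ))| ∂((mask (ε i)).prod perc))
          atTop (𝓝 0) := by
  rw [tendsto_BL]
  refine forall_congr' fun G => forall_congr' fun hG => ?_
  obtain ⟨m, hm⟩ : ∃ m : ℝ, m = ∫ f, G f ∂(μ : Measure C(unitInterval, ℂ)) := ⟨_, rfl⟩
  have hm1 : |m| ≤ 1 := by rw [hm]; exact abs_int_le hG.1
  rw [← hm]
  have hI : ∀ (i : ℕ) (a : ℝ), |a| ≤ 1 →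
      Integrable (fun w => Qm (n i) G w - a) ((mask (ε i)).prod perc) := by
    intro i a _
    exact (Integrable.of_bound (C := 1) (Qm_meas (n i) G).aestronglyMeasurable
      (Eventually.of_forall fun w => by rw [Real.norm_eq_abs]; exact Qm_bd hG.1 w)).sub
        (integrable_const _)
  have ha1 : ∀ i, |∫ x, G x ∂(lawH (n i) : Measure C(unitInterval, ℂ))| ≤ 1 :=
    fun i => abs_int_le hG.1
  constructor
  · intro h
    rw [Metric.tendsto_atTop] at h ⊢
    intro η hη
    obtain ⟨N1, hN1⟩ := h (η/2) (by positivity)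
    obtain ⟨C0, hC0, hq⟩ := quench_main (η := (η/4) ^ 2) (by positivity)
    obtain ⟨N2, hN2⟩ := eventually_atTop.1 (eventually_noise hn hε C0)
    refine ⟨max N1 N2, fun i hi => ?_⟩
    have h1 := hN1 i ((le_max_left _ _).trans hi)
    obtain ⟨a1, a2⟩ := hN2 i ((le_max_right _ _).trans hi)
    have h2 := hq (n i) (ε i) a1 a2 G hG
    rw [← QV_prod (ε i) hG.1] at h2
    obtain ⟨a, ha⟩ : ∃ a : ℝ, a = ∫ ω, G (curve (n i) ω) ∂perc := ⟨_, rfl⟩
    have ha' : ∫ x, G x ∂(lawH (n i) : Measure C(unitInterval, ℂ)) = a := by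
      rw [lawH_int _ hG.2.continuous, ha]
    rw [← ha] at h2
    rw [ha', Real.dist_eq] at h1
    have hab : |a| ≤ 1 := by rw [← ha']; exact ha1 i
    rw [Real.dist_eq, sub_zero, abs_of_nonneg (integral_nonneg fun w => abs_nonneg _)]
    have iQ := hI i a hab
    have iQ2 : Integrable (fun w => (Qm (n i) G w - a) ^ 2) ((mask (ε i)).prod perc) :=
      Integrable.of_bound (C := 4) (((Qm_meas (n i) G).sub_const _).pow_const 2).aestronglyMeasurable
        (Eventually.of_forall fun w => by
          have h1 := abs_le.1 (Qm_bd (n := n i) hG.1 w)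
          have h3 := abs_le.1 hab
          rw [Real.norm_eq_abs, abs_of_nonneg (sq_nonneg _)]
          nlinarith)
    have h3 : ∫ w, |Qm (n i) G w - m| ∂((mask (ε i)).prod perc) ≤
        ∫ w, ((η/8 + |a - m|) + (2/η) * (Qm (n i) G w - a) ^ 2) ∂((mask (ε i)).prod perc) := by
      refine integral_mono (hI i m hm1).abs ((integrable_const _).add (iQ2.const_mul _)) ?_
      intro w
      simp only
      have h4 : |Qm (n i) G w - m| ≤ |Qm (n i) G w - a| + |a - m| := by
        have : Qm (n i) G w - m = (Qm (n i) G w - a) + (a - m) := by ring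
        rw [this]
        exact abs_add_le _ _
      have h5 : |Qm (n i) G w - a| ≤ η/8 + (2/η) * (Qm (n i) G w - a) ^ 2 := by
        rw [← sq_abs (Qm (n i) G w - a)]
        set t := |Qm (n i) G w - a|
        have h6 : 0 ≤ (2/η) * (t - η/4) ^ 2 := by positivity
        have h7 : (2/η) * (t - η/4) ^ 2 = (2/η) * t ^ 2 - t + η/8 := by
          field_simp
          ring
        rw [h7] at h6
        linarith
      linarith
    rw [integral_add (integrable_const _) (iQ2.const_mul _), integral_const_mul] at h3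
    have h8 : (2/η) * ∫ w, (Qm (n i) G w - a) ^ 2 ∂((mask (ε i)).prod perc) ≤ η/8 := by
      calc _ ≤ (2/η) * (η/4) ^ 2 := mul_le_mul_of_nonneg_left h2 (by positivity)
        _ = η/8 := by field_simp; ring
    simp only [integral_const, probReal_univ, smul_eq_mul, one_mul] at h3
    show ∫ w, |Qm (n i) G w - m| ∂((mask (ε i)).prod perc) < η
    linarith
  · intro h
    rw [tendsto_iff_dist_tendsto_zero]
    refine squeeze_zero (fun i => dist_nonneg) (fun i => ?_) h
    have e1 : ∫ x, G x ∂(lawH (n i) : Measure C(unitInterval, ℂ)) - m =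
        ∫ w, (Qm (n i) G w - m) ∂((mask (ε i)).prod perc) := by
      have iQ : Integrable (Qm (n i) G) ((mask (ε i)).prod perc) :=
        Integrable.of_bound (C := 1) (Qm_meas (n i) G).aestronglyMeasurable
          (Eventually.of_forall fun w => by rw [Real.norm_eq_abs]; exact Qm_bd hG.1 w)
      rw [integral_sub iQ (integrable_const _), Qm_mean (ε i) hG.1, lawH_int _ hG.2.continuous]
      simp
    rw [Real.dist_eq, e1]
    exact abs_integral_le_integral_abs

end Pool.Agent.Zk72.NE
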