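import Pool.Agent.Zk72.NE.Rev
import Pool.Agent.Zk72.NE.Sp
import Pool.Agent.H984R4.HN.FinalH
import Mathlib.Probability.Distributions.Bernoulli

/-!
Resampling of a random set of edges, and the spectral expansion.
-/

set_option autoImplicit false

namespace Pool.Agent.Zk72.NE

open H984H H974 H984P H342P Finset MeasureTheory H389NS H12S

/-- The random set of the edges which are resampled. -/
noncomputable def mask (ε : unitInterval) : Measure Conf :=
  Measure.infinitePi (fun _ => ProbabilityTheory.bernoulliMeasure true false ε)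

instance mask_prob (ε : unitInterval) : IsProbabilityMeasure (mask ε) := by
  unfold mask
  infer_instance

/-- The configuration which is equal to `c` at the edges of `u` and to `b` at the other edges. -/
def mix (u b c : Conf) : Conf := fun e => if u e then c e else b e

theorem cut_mix (u b c : Conf) (ρ : ℤ) :
    cut (mix u b c) ρ = (cut b ρ \ cut u ρ) ∪ (cut c ρ ∩ cut u ρ) := by
  ext e
  rw [Finset.mem_union, Finset.mem_sdiff, Finset.mem_inter, Perc_mem_cut, Perc_mem_cut,
    Perc_mem_cut, Perc_mem_cut]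
  unfold mix
  by_cases h1 : u e = true
  · rw [h1]
    simp only [if_true]
    tauto
  · rw [Bool.not_eq_true] at h1
    rw [h1]
    simp only [Bool.false_eq_true, if_false, and_false, not_false_eq_true, and_true, or_false]

theorem ok_half : Ok (fun _ : Edg => (1/2:ℝ)) := fun _ => ⟨by norm_num, by norm_num⟩

theorem int_c (ρ : ℤ) (g : Finset Edg → ℝ) (u b : Conf) :
    ∫ c, g (cut (mix u b c) ρ) ∂perc =
      Ex hp (cut u ρ) (fun Y => g ((cut b ρ \ cut u ρ) ∪ Y)) := by
  have h1 : ∀ c : Conf, g (cut (mix u b c) ρ) =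
      (fun F => g ((cut b ρ \ cut u ρ) ∪ (F ∩ cut u ρ))) (cut c ρ) := by
    intro c
    rw [cut_mix]
  rw [integral_congr_ae (Filter.Eventually.of_forall h1),
    perc_cut_int ρ (fun F => g ((cut b ρ \ cut u ρ) ∪ (F ∩ cut u ρ)))]
  show Ex hp (bx ρ).edges _ = _
  rw [Ex_split (Perc_cut_sub u ρ)]
  rw [← Ex_const hp ((bx ρ).edges \ cut u ρ)
    (Ex hp (cut u ρ) (fun Y => g ((cut b ρ \ cut u ρ) ∪ Y)))]
  refine Ex_congr fun G hG => Ex_congr fun Y hY => ?_
  congr 2
  rw [Finset.union_inter_distrib_right, Finset.inter_eq_left.2 hY]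
  have : G ∩ cut u ρ = ∅ := by
    rw [← Finset.disjoint_iff_inter_eq_empty]
    exact Finset.disjoint_of_subset_left hG Finset.sdiff_disjoint
  rw [this, Finset.empty_union]

theorem int_b (ρ : ℤ) (g : Finset Edg → ℝ) (u : Conf) :
    ∫ b, (∫ c, g (cut (mix u b c) ρ) ∂perc) ^ 2 ∂perc =
      ∑ T ∈ (bx ρ).edges.powerset.filter (fun T => Disjoint T (cut u ρ)),
        (wal (bx ρ).edges g T) ^ 2 := by
  have h1 : ∀ b : Conf, (∫ c, g (cut (mix u b c) ρ) ∂perc) ^ 2 =
      (fun F => (Ex hp (cut u ρ) (fun Y => g ((F \ cut u ρ) ∪ Y))) ^ 2) (cut b ρ) := by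
    intro b
    rw [int_c]
  rw [integral_congr_ae (Filter.Eventually.of_forall h1),
    perc_cut_int ρ (fun F => (Ex hp (cut u ρ) (fun Y => g ((F \ cut u ρ) ∪ Y))) ^ 2)]
  show Ex hp (bx ρ).edges _ = _
  rw [Ex_split (Perc_cut_sub u ρ)]
  have e1 : (bx ρ).edges.powerset.filter (fun T => Disjoint T (cut u ρ)) =
      ((bx ρ).edges \ cut u ρ).powerset := by
    ext T
    rw [Finset.mem_filter, Finset.mem_powerset, Finset.mem_powerset, Finset.subset_sdiff]
  rw [e1, ← UU_full (Perc_cut_sub u ρ)]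
  unfold UU
  refine Ex_congr fun G hG => ?_
  rw [← Ex_const hp (cut u ρ) ((Ex hp (cut u ρ) (fun Y => g (G ∪ Y))) ^ 2)]
  refine Ex_congr fun Y hY => ?_
  congr 1
  refine Ex_congr fun Y' _ => ?_
  congr 2
  rw [Finset.union_sdiff_distrib, Finset.sdiff_eq_empty_iff_subset.2 hY, Finset.union_empty]
  exact Finset.sdiff_eq_self_of_disjoint (Finset.disjoint_of_subset_left hG
    Finset.sdiff_disjoint)

theorem cut_disj (ρ : ℤ) {T : Finset Edg} (hT : T ⊆ (bx ρ).edges) (u : Conf) :
    Disjoint T (cut u ρ) ↔ u ∈ Set.pi (↑T : Set Edg) (fun _ => ({false} : Set Bool)) := by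
  rw [Set.mem_pi, Finset.disjoint_left]
  constructor
  · intro h e he
    have h1 := h he
    rw [Perc_mem_cut] at h1
    rw [Set.mem_singleton_iff, ← Bool.not_eq_true]
    exact fun h2 => h1 ⟨hT he, h2⟩
  · intro h e he he2
    rw [Perc_mem_cut] at he2
    have h1 := h e he
    rw [Set.mem_singleton_iff] at h1
    rw [h1] at he2
    exact absurd he2.2 (by decide)

theorem mask_pi (ε : unitInterval) (T : Finset Edg) :
    (mask ε).real (Set.pi (↑T : Set Edg) (fun _ => ({false} : Set Bool))) =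
      (1 - (ε : ℝ)) ^ T.card := by
  unfold mask
  rw [measureReal_def, Measure.infinitePi_pi _ (fun _ _ => MeasurableSet.of_discrete),
    ENNReal.toReal_prod]
  have h1 : ∀ e ∈ T, (ProbabilityTheory.bernoulliMeasure true false ε
      ({false} : Set Bool)).toReal = 1 - (ε : ℝ) := by
    intro e _
    exact ProbabilityTheory.bernoulliMeasure_real_apply_of_notMem_of_mem ε
      (measurableSet_singleton _) (by simp) (by simp)
  rw [Finset.prod_congr rfl h1, Finset.prod_const]

/-- The spectral expansion of the second moment. -/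
theorem int_u (ρ : ℤ) (g : Finset Edg → ℝ) (ε : unitInterval) :
    ∫ u, ∫ b, (∫ c, g (cut (mix u b c) ρ) ∂perc) ^ 2 ∂perc ∂(mask ε) =
      ∑ T ∈ (bx ρ).edges.powerset, (wal (bx ρ).edges g T) ^ 2 * (1 - (ε : ℝ)) ^ T.card := by
  classical
  have hm : ∀ T : Finset Edg, MeasurableSet
      (Set.pi (↑T : Set Edg) (fun _ => ({false} : Set Bool))) := fun T =>
    MeasurableSet.pi (Finset.countable_toSet _) (fun _ _ => MeasurableSet.of_discrete)
  have h1 : ∀ u : Conf, ∫ b, (∫ c, g (cut (mix u b c) ρ) ∂perc) ^ 2 ∂perc =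
      ∑ T ∈ (bx ρ).edges.powerset, Set.indicator
        (Set.pi (↑T : Set Edg) (fun _ => ({false} : Set Bool)))
        (fun _ => (wal (bx ρ).edges g T) ^ 2) u := by
    intro u
    rw [int_b, Finset.sum_filter]
    refine Finset.sum_congr rfl fun T hT => ?_
    have h2 := cut_disj ρ (Finset.mem_powerset.1 hT) u
    by_cases h : Disjoint T (cut u ρ)
    · rw [if_pos h, Set.indicator_of_mem (h2.1 h)]
    · rw [if_neg h, Set.indicator_of_notMem (fun h3 => h (h2.2 h3))]
  rw [integral_congr_ae (Filter.Eventually.of_forall h1), integral_finsetSum]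
  · refine Finset.sum_congr rfl fun T _ => ?_
    rw [integral_indicator_const _ (hm T), mask_pi, smul_eq_mul, mul_comm]
  · intro T _
    exact (integrable_const _).indicator (hm T)

theorem wal_sub {V T : Finset Edg} (hT : T ⊆ V) (hne : T.Nonempty) (g : Finset Edg → ℝ) (a : ℝ) :
    wal V (fun F => g F - a) T = wal V g T := by
  unfold wal
  have h1 : ∀ F, chi T F * (g F - a) = chi T F * g F - a * chi T F := by intro F; ring
  rw [Ex_congr (fun F _ => h1 F), Ex_sub, Ex_mul_left, SSx.Ex_chi hT hne, mul_zero, sub_zero]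

theorem wal_empty {V : Finset Edg} (g : Finset Edg → ℝ) :
    wal V (fun F => g F - Ex hp V g) ∅ = 0 := by
  unfold wal
  have h1 : ∀ F : Finset Edg, chi ∅ F * (g F - Ex hp V g) = g F - Ex hp V g := by
    intro F
    simp [chi]
  rw [Ex_congr (fun F _ => h1 F), Ex_sub, Ex_const, sub_self]

/-- The variance of the conditional expectation given the configuration off the resampled set. -/
theorem quench {n : ℕ} {ρ : ℤ} (hρ : (n : ℤ) < ρ) (G : C(unitInterval, ℂ) → ℝ)
    (ε : unitInterval) :
    ∫ u, ∫ b, ((∫ c, G (curve n (mix u b c)) ∂perc) - ∫ ω, G (curve n ω) ∂perc) ^ 2 ∂perc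
        ∂(mask ε) =
      ∑ T ∈ (bx ρ).edges.powerset.filter (fun T => T.Nonempty),
        (wal (bx ρ).edges (fun F => G (curve n (cf F))) T) ^ 2 * (1 - (ε : ℝ)) ^ T.card := by
  classical
  set g : Finset Edg → ℝ := fun F => G (curve n (cf F)) with hg
  have hcc : ∀ ω : Conf, curve n (cf (cut ω ρ)) = curve n ω := by
    intro ω
    unfold curve
    apply Perc_pl_congr
    intro k hk
    unfold gam
    rw [path_cut hρ ω k hk]
  have e1 : ∫ ω, G (curve n ω) ∂perc = Ex hp (bx ρ).edges g := by
    have : ∀ ω : Conf, G (curve n ω) = g (cut ω ρ) := by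
      intro ω
      rw [hg]
      simp only
      rw [hcc]
    rw [integral_congr_ae (Filter.Eventually.of_forall this), perc_cut_int]
    rfl
  set a : ℝ := Ex hp (bx ρ).edges g with ha
  have e2 : ∀ u b : Conf, (∫ c, G (curve n (mix u b c)) ∂perc) - ∫ ω, G (curve n ω) ∂perc =
      ∫ c, (fun F => g F - a) (cut (mix u b c) ρ) ∂perc := by
    intro u b
    rw [e1]
    have h2 : ∀ c : Conf, G (curve n (mix u b c)) =
        (fun F => g ((cut b ρ \ cut u ρ) ∪ (F ∩ cut u ρ))) (cut c ρ) := by
      intro c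
      simp only
      rw [← cut_mix, hg]
      simp only
      rw [hcc]
    have h3 : ∀ c : Conf, (fun F => g F - a) (cut (mix u b c) ρ) =
        (fun F => g ((cut b ρ \ cut u ρ) ∪ (F ∩ cut u ρ)) - a) (cut c ρ) := by
      intro c
      simp only
      rw [← cut_mix]
    rw [integral_congr_ae (Filter.Eventually.of_forall h2),
      integral_congr_ae (Filter.Eventually.of_forall h3),
      perc_cut_int ρ (fun F => g ((cut b ρ \ cut u ρ) ∪ (F ∩ cut u ρ))),
      perc_cut_int ρ (fun F => g ((cut b ρ \ cut u ρ) ∪ (F ∩ cut u ρ)) - a)]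
    show _ - _ = Ex hp (bx ρ).edges _
    rw [Ex_sub, Ex_const]
    rfl
  simp_rw [e2]
  refine Eq.trans (int_u ρ (fun F => g F - a) ε) ?_
  rw [Finset.sum_filter]
  refine Finset.sum_congr rfl fun T hT => ?_
  by_cases h : T.Nonempty
  · rw [if_pos h, wal_sub (Finset.mem_powerset.1 hT) h]
  · rw [if_neg h]
    rw [Finset.not_nonempty_iff_eq_empty] at h
    subst h
    rw [ha, wal_empty]
    ring

end Pool.Agent.Zk72.NE
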