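import Pool.Agent.Zk72.NE.Close
import Pool.Agent.Zk72.NE.Mask

/-!
The variance of the conditional expectation of a function of the curve, given the configuration off
a random set of edges of density `ε`.
-/

set_option autoImplicit false

namespace Pool.Agent.Zk72.NE

open H984H H974 H984P H342P Finset MeasureTheory H389NS H12S Filter Topology

/-- The edges off the box of radius `r` are revealed with probability at most `Cv r ^ (-v0)`. -/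
def RevB (v0 Cv : ℝ) : Prop := ∀ (n r : ℕ) (ρ : ℤ), 1 ≤ r → (n : ℤ) < ρ →
  ∀ e ∈ (bx ρ).edges \ WW ρ r, P (bx ρ).edges (fun F => e ∈ Rset ρ n F) ≤ Cv * (r : ℝ) ^ (-v0)

/-- The quantity to be bounded. -/
noncomputable def QV (n : ℕ) (ε : unitInterval) (G : C(unitInterval, ℂ) → ℝ) : ℝ :=
  ∫ u, ∫ b, ((∫ c, G (curve n (mix u b c)) ∂perc) - ∫ ω, G (curve n ω) ∂perc) ^ 2 ∂perc ∂(mask ε)

theorem QV_le {v0 Cv : ℝ} (hCv : 0 ≤ Cv) (hrev : RevB v0 Cv) {n m r R : ℕ} (hn : 0 < n)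
    (hmn : m ≤ n) (hr : 1 ≤ r) (hrR : r < R) {Λ : ℝ} (hΛ : 0 ≤ Λ) {ε : unitInterval}
    (hε : 0 < (ε : ℝ)) {G : C(unitInterval, ℂ) → ℝ} (hG1 : ∀ f, |G f| ≤ 1)
    (hG2 : LipschitzWith 1 G) :
    QV n ε G ≤ (2 * (Λ * ((m : ℝ) / n) ^ (1/2 : ℝ))) ^ 2 +
      4 * perc.real {ω | Bad n m r R (1/2) Λ ω} + Cv * (r : ℝ) ^ (-v0) / (ε : ℝ) ^ 2 := by
  obtain ⟨ρ, hρ⟩ : ∃ ρ : ℤ, ρ = n + 1 := ⟨_, rfl⟩
  have hρn : (n : ℤ) < ρ := by omega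
  unfold QV
  rw [quench hρn G ε]
  have h1 := mass (WW_sub ρ r) (g := fun F => G (curve n (cf F))) (fun F _ => hG1 _)
    (Rset ρ n) (fun Y _ => Rset_sub ρ n Y) (fun Y Y' _ _ h => Rset_stop hρn h)
    (fun Y Y' _ _ h => by
      have h2 := Rset_path hρn h
      congr 1
      unfold curve
      apply Perc_pl_congr
      intro k hk
      unfold gam
      rw [h2 k hk])
    (δ := Cv * (r : ℝ) ^ (-v0)) (by positivity)
    (fun e he => hrev n r ρ hr hρn e he)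
    (x := 1 - (ε : ℝ)) (by linarith [ε.2.2]) (by linarith)
  have e1 : 1 - (1 - (ε : ℝ)) = ε := by ring
  rw [e1] at h1
  have h2 := var_curve (r := r) hn hmn hrR hρn (β := 1/2) (by norm_num) hΛ hG1 hG2
  linarith

theorem main_quench {v0 Cv : ℝ} (hv0 : 0 < v0) (hCv : 0 < Cv) (hrev : RevB v0 Cv) {c C : ℝ}
    (hc : 0 < c) (hC : 0 < C) (hL : LowA c (1/4)) (hU : TwoUp C (1/4)) {η : ℝ} (hη : 0 < η) :
    ∃ C0 : ℝ, 0 < C0 ∧ ∀ (n : ℕ) (ε : unitInterval), 1 ≤ n →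
      C0 * (n : ℝ) ^ (-(2/7 * v0)) ≤ ε → ∀ G : C(unitInterval, ℂ) → ℝ, (∀ f, |G f| ≤ 1) →
      LipschitzWith 1 G → QV n ε G ≤ η := by
  obtain ⟨a, A, A', ha, hA, hA', hbad⟩ := bad_prob hc hC hL hU
  obtain ⟨Λ, hΛ, hB⟩ := hbad (η/32) (by positivity)
  obtain ⟨K1, hK1, hK1'⟩ : ∃ K1 : ℕ, 2 ≤ K1 ∧ 4 * (A * (1 / (K1 : ℝ)) ^ a) ≤ η/8 := by
    have h1 : Tendsto (fun k : ℕ => 4 * (A * (1 / (k : ℝ)) ^ a)) atTop (𝓝 (4 * (A * 0))) := by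
      refine Tendsto.const_mul _ (Tendsto.const_mul _ ?_)
      have h2 : Tendsto (fun k : ℕ => 1 / (k : ℝ)) atTop (𝓝 0) :=
        tendsto_one_div_atTop_nhds_zero_nat
      have h3 := h2.rpow_const (p := a) (Or.inr ha.le)
      rwa [Real.zero_rpow ha.ne'] at h3
    rw [mul_zero, mul_zero] at h1
    obtain ⟨k, hk⟩ := ((h1.eventually (ge_mem_nhds (by positivity : (0:ℝ) < η/8))).and
      (eventually_ge_atTop 2)).exists
    exact ⟨k, hk.2, hk.1⟩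
  have hK10 : (0:ℝ) < K1 := by exact_mod_cast (by omega : 0 < K1)
  obtain ⟨L, hL1, hL2⟩ : ∃ L : ℝ, 1 ≤ L ∧ 4 * (A' * ((3 * (K1 : ℝ)) ^ (7/4 : ℝ) / L)) ≤ η/8 := by
    refine ⟨max 1 (32 * A' * (3 * (K1 : ℝ)) ^ (7/4 : ℝ) / η), le_max_left _ _, ?_⟩
    set L := max 1 (32 * A' * (3 * (K1 : ℝ)) ^ (7/4 : ℝ) / η) with hLd
    have h0 : (0:ℝ) < L := lt_of_lt_of_le one_pos (le_max_left _ _)
    have h1 : 32 * A' * (3 * (K1 : ℝ)) ^ (7/4 : ℝ) / η ≤ L := le_max_right _ _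
    rw [div_le_iff₀ hη] at h1
    have h2 : 4 * (A' * ((3 * (K1 : ℝ)) ^ (7/4 : ℝ) / L)) =
        (4 * A' * (3 * (K1 : ℝ)) ^ (7/4 : ℝ)) / L := by ring
    rw [h2, div_le_iff₀ h0]
    linarith
  obtain ⟨Q, hQ1, hQ2⟩ : ∃ Q : ℝ, 1 ≤ Q ∧ 4 * Λ ^ 2 / Q ≤ η/8 := by
    refine ⟨max 1 (32 * Λ ^ 2 / η), le_max_left _ _, ?_⟩
    set Q := max 1 (32 * Λ ^ 2 / η) with hQd
    have h0 : (0:ℝ) < Q := lt_of_lt_of_le one_pos (le_max_left _ _)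
    have h1 : 32 * Λ ^ 2 / η ≤ Q := le_max_right _ _
    rw [div_le_iff₀ hη] at h1
    rw [div_le_iff₀ h0]
    linarith
  obtain ⟨K, hK⟩ : ∃ K : ℝ, K = 2 * L * Q := ⟨_, rfl⟩
  have hL0 : 0 < L := by linarith
  have hQ0 : 0 < Q := by linarith
  have hK0 : 0 < K := by rw [hK]; positivity
  obtain ⟨κ, hκ⟩ : ∃ κ : ℝ, κ = 2/7 * v0 := ⟨_, rfl⟩
  have hκ0 : 0 < κ := by rw [hκ]; positivity
  obtain ⟨M, hM⟩ : ∃ M : ℝ, M = 2 * Cv * 2 ^ v0 * K ^ (2 * κ) / η := ⟨_, rfl⟩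
  have hM0 : 0 < M := by rw [hM]; positivity
  refine ⟨max ((4 * K) ^ κ) (Real.sqrt M), by positivity, fun n ε hn hε G hG1 hG2 => ?_⟩
  rw [← hκ] at hε
  set C0 := max ((4 * K) ^ κ) (Real.sqrt M) with hC0d
  have hC0 : 0 < C0 := lt_of_lt_of_le (by positivity) (le_max_left _ _)
  have hn0 : (0:ℝ) < n := by exact_mod_cast hn
  have hnκ : (0:ℝ) < (n:ℝ) ^ κ := Real.rpow_pos_of_pos hn0 _
  have hε1 : (ε : ℝ) ≤ 1 := ε.2.2
  have hε0 : 0 < (ε : ℝ) := lt_of_lt_of_le (by positivity) hε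
  -- `n` is large
  have hn4 : 4 * K ≤ n := by
    have h1 : C0 ≤ (n:ℝ) ^ κ := by
      have h2 := hε.trans hε1
      rw [Real.rpow_neg hn0.le, ← div_eq_mul_inv, div_le_one hnκ] at h2
      exact h2
    have h3 : (4 * K) ^ κ ≤ (n:ℝ) ^ κ := (le_max_left _ _).trans h1
    exact (Real.rpow_le_rpow_iff (by positivity) hn0.le hκ0).1 h3
  obtain ⟨y, hy⟩ : ∃ y : ℝ, y = ((n:ℝ) / K) ^ (4/7 : ℝ) := ⟨_, rfl⟩
  have hy2 : 2 ≤ y := by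
    have h1 : (4:ℝ) ≤ n / K := by rw [le_div_iff₀ hK0]; exact hn4
    have h2 : (2:ℝ) ≤ 4 ^ (4/7 : ℝ) := by
      have h3 : (4:ℝ) ^ (1/2 : ℝ) ≤ 4 ^ (4/7 : ℝ) :=
        Real.rpow_le_rpow_of_exponent_le (by norm_num) (by norm_num)
      have h4 : (4:ℝ) ^ (1/2 : ℝ) = 2 := by
        rw [show (4:ℝ) = 2 ^ (2:ℝ) by norm_num, ← Real.rpow_mul (by norm_num)]
        norm_num
      linarith
    rw [hy]
    exact h2.trans (Real.rpow_le_rpow (by norm_num) h1 (by norm_num))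
  have hy0 : 0 < y := by linarith
  have hy7 : y ^ (7/4 : ℝ) = n / K := by
    rw [hy, ← Real.rpow_mul (by positivity)]
    norm_num
  obtain ⟨r, hr⟩ : ∃ r : ℕ, r = ⌊y⌋₊ := ⟨_, rfl⟩
  have hr1 : (r : ℝ) ≤ y := by rw [hr]; exact Nat.floor_le hy0.le
  have hr2 : y / 2 ≤ r := by
    have h1 := Nat.lt_floor_add_one y
    rw [← hr] at h1
    linarith
  have hr3 : 1 ≤ r := by
    have : (1:ℝ) ≤ r := by linarith
    exact_mod_cast this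
  have hr0 : (0:ℝ) < r := by exact_mod_cast hr3
  have hr1R : (1:ℝ) ≤ r := by exact_mod_cast hr3
  have hr7 : (r : ℝ) ^ (7/4 : ℝ) ≤ n / K := by
    rw [← hy7]
    exact Real.rpow_le_rpow hr0.le hr1 (by norm_num)
  have hr71 : 1 ≤ (r : ℝ) ^ (7/4 : ℝ) := Real.one_le_rpow hr1R (by norm_num)
  obtain ⟨m, hm⟩ : ∃ m : ℕ, m = ⌈L * (r : ℝ) ^ (7/4 : ℝ)⌉₊ := ⟨_, rfl⟩
  have hm1 : L * (r : ℝ) ^ (7/4 : ℝ) ≤ m := by rw [hm]; exact Nat.le_ceil _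
  have hLr : 1 ≤ L * (r : ℝ) ^ (7/4 : ℝ) := by nlinarith
  have hm2 : (m : ℝ) ≤ 2 * (L * (r : ℝ) ^ (7/4 : ℝ)) := by
    have := Nat.ceil_lt_add_one (a := L * (r : ℝ) ^ (7/4 : ℝ)) (by positivity)
    rw [← hm] at this
    linarith
  have hm3 : (m : ℝ) / n ≤ 1 / Q := by
    rw [div_le_div_iff₀ hn0 hQ0]
    have h1 : 2 * (L * (r : ℝ) ^ (7/4 : ℝ)) ≤ 2 * (L * (n / K)) := by
      have := mul_le_mul_of_nonneg_left hr7 hL0.le
      linarith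
    have h2 : 2 * (L * (n / K)) * Q = n := by
      rw [hK]
      field_simp
    calc (m : ℝ) * Q ≤ 2 * (L * (n / K)) * Q :=
          mul_le_mul_of_nonneg_right (hm2.trans h1) hQ0.le
      _ = 1 * n := by rw [h2, one_mul]
  have hmn : m ≤ n := by
    have h1 : (m : ℝ) / n ≤ 1 := hm3.trans (by rw [div_le_one hQ0]; exact hQ1)
    rw [div_le_one hn0] at h1
    exact_mod_cast h1
  have hmp : 1 ≤ m := by
    have : (1:ℝ) ≤ m := hLr.trans hm1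
    exact_mod_cast this
  have hm0 : (0:ℝ) < m := by exact_mod_cast hmp
  obtain ⟨R, hR⟩ : ∃ R : ℕ, R = K1 * r := ⟨_, rfl⟩
  have hrR : r < R := by rw [hR]; nlinarith
  have hRR : (R : ℝ) = K1 * r := by rw [hR]; push_cast; ring
  have h1 := QV_le hCv.le hrev hn hmn hr3 hrR (Λ := Λ) (by linarith) hε0 hG1 hG2
  have h2 := hB n m r R hn hmp hr3 hrR
  -- the terms
  have t1 : (2 * (Λ * ((m : ℝ) / n) ^ (1/2 : ℝ))) ^ 2 ≤ η/8 := by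
    have h3 : (2 * (Λ * ((m : ℝ) / n) ^ (1/2 : ℝ))) ^ 2 =
        4 * Λ ^ 2 * (((m : ℝ) / n) ^ (1/2 : ℝ)) ^ 2 := by ring
    have h4 : (((m : ℝ) / n) ^ (1/2 : ℝ)) ^ 2 = (m : ℝ) / n := by
      rw [← Real.rpow_natCast, ← Real.rpow_mul (by positivity)]
      norm_num
    rw [h3, h4]
    calc 4 * Λ ^ 2 * ((m : ℝ) / n) ≤ 4 * Λ ^ 2 * (1 / Q) :=
          mul_le_mul_of_nonneg_left hm3 (by positivity)
      _ = 4 * Λ ^ 2 / Q := by ring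
      _ ≤ η/8 := hQ2
  have t2 : A * ((r : ℝ) / R) ^ a = A * (1 / (K1 : ℝ)) ^ a := by
    rw [hRR]
    congr 2
    field_simp
  have t3 : ((2 * (R : ℝ) + 1) / (m : ℝ) ^ (4/7 : ℝ)) ^ (7/4 : ℝ) ≤
      (3 * (K1 : ℝ)) ^ (7/4 : ℝ) / L := by
    have h3 : ((2 * (R : ℝ) + 1) / (m : ℝ) ^ (4/7 : ℝ)) ^ (7/4 : ℝ) =
        (2 * (R : ℝ) + 1) ^ (7/4 : ℝ) / m := by
      rw [Real.div_rpow (by positivity) (by positivity), ← Real.rpow_mul hm0.le]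
      norm_num
    rw [h3, div_le_div_iff₀ hm0 hL0]
    have hR1 : (1:ℝ) ≤ R := by exact_mod_cast (by omega : 1 ≤ R)
    have h4 : (2 * (R : ℝ) + 1) ^ (7/4 : ℝ) ≤ (3 * (K1 : ℝ)) ^ (7/4 : ℝ) * (r : ℝ) ^ (7/4 : ℝ) := by
      rw [← Real.mul_rpow (by positivity) hr0.le]
      refine Real.rpow_le_rpow (by positivity) ?_ (by norm_num)
      rw [hRR] at hR1 ⊢
      linarith
    calc (2 * (R : ℝ) + 1) ^ (7/4 : ℝ) * L ≤
          (3 * (K1 : ℝ)) ^ (7/4 : ℝ) * (r : ℝ) ^ (7/4 : ℝ) * L :=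
          mul_le_mul_of_nonneg_right h4 hL0.le
      _ = (3 * (K1 : ℝ)) ^ (7/4 : ℝ) * (L * (r : ℝ) ^ (7/4 : ℝ)) := by ring
      _ ≤ (3 * (K1 : ℝ)) ^ (7/4 : ℝ) * m := mul_le_mul_of_nonneg_left hm1 (by positivity)
  have t4 : Cv * (r : ℝ) ^ (-v0) / (ε : ℝ) ^ 2 ≤ η/2 := by
    have h3 : (r : ℝ) ^ (-v0) ≤ (y / 2) ^ (-v0) :=
      Real.rpow_le_rpow_of_nonpos (by positivity) hr2 (by linarith)
    have h4 : (y / 2) ^ (-v0) = 2 ^ v0 * (K ^ (2 * κ) * (n:ℝ) ^ (-(2 * κ))) := by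
      rw [Real.div_rpow hy0.le (by norm_num), hy, ← Real.rpow_mul (by positivity),
        Real.div_rpow hn0.le hK0.le, Real.rpow_neg (by norm_num : (0:ℝ) ≤ 2)]
      have e1 : (4/7 : ℝ) * -v0 = -(2 * κ) := by rw [hκ]; ring
      rw [e1, Real.rpow_neg hK0.le]
      field_simp
    have h5 : M * (n:ℝ) ^ (-(2 * κ)) ≤ (ε : ℝ) ^ 2 := by
      have h6 : Real.sqrt M * (n:ℝ) ^ (-κ) ≤ ε :=
        (mul_le_mul_of_nonneg_right (le_max_right _ _) (by positivity)).trans hε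
      have h7 : M * (n:ℝ) ^ (-(2 * κ)) = (Real.sqrt M * (n:ℝ) ^ (-κ)) ^ 2 := by
        rw [mul_pow, Real.sq_sqrt hM0.le]
        congr 1
        rw [← Real.rpow_natCast, ← Real.rpow_mul hn0.le]
        congr 1
        push_cast
        ring
      rw [h7]
      exact pow_le_pow_left₀ (by positivity) h6 2
    rw [div_le_iff₀ (by positivity)]
    calc Cv * (r : ℝ) ^ (-v0) ≤ Cv * (2 ^ v0 * (K ^ (2 * κ) * (n:ℝ) ^ (-(2 * κ)))) := by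
          rw [← h4]; exact mul_le_mul_of_nonneg_left h3 hCv.le
      _ = η / 2 * (M * (n:ℝ) ^ (-(2 * κ))) := by
          rw [hM]
          field_simp
      _ ≤ η / 2 * (ε : ℝ) ^ 2 := mul_le_mul_of_nonneg_left h5 (by positivity)
  rw [t2] at h2
  have t3' := mul_le_mul_of_nonneg_left t3 hA'.le
  linarith

end Pool.Agent.Zk72.NE
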