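import Pool.Agent.Zk72.NE.Main
import Pool.Agent.H731R5.Gr.HPfin2
import Pool.Agent.H985R3.TA.STA
import Pool.Agent.H934R3.SL.SL

/-!
The exploration path visits a vertex at distance `d` from the origin with probability at most
`C d ^ (-1/4)`.
-/

set_option autoImplicit false

namespace Pool.Agent.Zk72.NE

open H984H H974 H984P H342P Finset MeasureTheory

/-! ### finite volume -/

theorem hv_fin : ∃ C : ℝ, 0 < C ∧ ∀ (x : ℤ) (y M : ℕ), 1 ≤ y → 4 * (|x| + (y:ℤ)) ≤ M →
    H731C.P2 (H731C.VE (-(M:ℤ)) M 0 M) (H731G.HV M (x, (y:ℤ))) ≤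
      C * (((1:ℝ) / y) ^ ((1:ℝ)/4) * ((y:ℝ) / ((|x| + y : ℤ) : ℝ)) ^ ((1:ℝ)/3)) := by
  obtain ⟨c1, C1, hc1, hC1, hg⟩ := H731G.green_scale H985T.st_A H934SL.st_L 2
  obtain ⟨C2, hC2, hH⟩ := H731G.HH_half
  refine ⟨2 * (C1 * C2 ^ ((1 : ℝ) / 3)), by positivity, ?_⟩
  intro x y M hy hM'
  have hax : 0 ≤ |x| := abs_nonneg x
  have hyR : (0 : ℝ) < (y : ℝ) := by exact_mod_cast (by omega : 0 < y)
  have hzR : (0 : ℝ) < ((|x| + y : ℤ) : ℝ) := by exact_mod_cast (by omega : 0 < |x| + (y : ℤ))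
  have hxx := neg_abs_le x
  have hxx' := le_abs_self x
  have e0 : H731C.P2 (H731C.VE (-(M:ℤ)) M 0 M) (H731G.HV M (x, (y:ℤ))) ≤
      H731C.P2 (H731C.VE (-(M:ℤ)) M 0 M) (H731G.HHit M (x, (y:ℤ)) 0) :=
    H731G.Sc.P2_mono' (fun F hF => ⟨(x, (y:ℤ)), by simp, hF⟩)
  have e1 := H731G.hit_up (M := (M : ℤ)) (x := x) (y := (y : ℤ)) (r := 0) (by omega)
    (by omega) (by omega) (by omega) (by omega)
  have p2 : min (H731G.px (2 * (M : ℤ)) (x + M, (y : ℤ))) (H731G.py (M : ℤ) (x + M, (y : ℤ))) =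
      y + 1 := by
    unfold H731G.px H731G.py; simp only; omega
  have e2 := (hg (2 * (M : ℤ)) (M : ℤ) 0 M 0 (x + M, (y : ℤ)) (by omega) (by omega)
    (by push_cast; omega) (by push_cast; omega) (by omega) (by omega)
    ⟨by simp only; omega, by simp only; omega⟩ ⟨by simp only; omega, by simp only; omega⟩
    (by omega) (by rw [p2]; omega)).2
  have e3 := hH (M : ℤ) x (y : ℤ) (by omega) hM'
  rw [p2] at e2
  have hHn : 0 ≤ H731G.HH (2 * (M : ℤ)) M 0 M (x + M, (y : ℤ)) :=
    H731G.HH_nonneg (by omega) (by omega) ⟨by simp only; omega, by simp only; omega⟩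
      ⟨by simp only; omega, by simp only; omega⟩
  have k1 : ((((0 : ℤ) + 1 : ℤ) : ℝ) / (((y : ℤ) + 1 : ℤ) : ℝ)) ^ ((1 : ℝ) / 4) ≤
      ((1:ℝ) / y) ^ ((1 : ℝ) / 4) := by
    apply Real.rpow_le_rpow (by positivity) _ (by norm_num)
    push_cast
    apply div_le_div_of_nonneg_left (by norm_num) hyR
    linarith
  have k2 : H731G.HH (2 * (M : ℤ)) M 0 M (x + M, (y : ℤ)) ^ ((1 : ℝ) / 3) ≤
      C2 ^ ((1 : ℝ) / 3) * ((y:ℝ) / ((|x| + y : ℤ) : ℝ)) ^ ((1:ℝ)/3) := by
    apply H731G.HPf.third_le' hHn (by positivity) hC2.le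
    refine e3.trans (le_of_eq ?_)
    push_cast; rfl
  have k3 : 0 ≤ H731G.HH (2 * (M : ℤ)) M 0 M (x + M, (y : ℤ)) ^ ((1 : ℝ) / 3) :=
    Real.rpow_nonneg hHn _
  calc _ ≤ _ := e0
    _ ≤ _ := e1
    _ ≤ 2 * (C1 * (((((0 : ℤ) + 1 : ℤ) : ℝ) / (((y : ℤ) + 1 : ℤ) : ℝ)) ^ ((1 : ℝ) / 4) *
          H731G.HH (2 * (M : ℤ)) M 0 M (x + M, (y : ℤ)) ^ ((1 : ℝ) / 3))) :=
        mul_le_mul_of_nonneg_left e2 (by norm_num)
    _ ≤ 2 * (C1 * (((1:ℝ) / y) ^ ((1 : ℝ) / 4) *
          (C2 ^ ((1 : ℝ) / 3) * ((y:ℝ) / ((|x| + y : ℤ) : ℝ)) ^ ((1:ℝ)/3)))) :=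
        mul_le_mul_of_nonneg_left (mul_le_mul_of_nonneg_left
          (mul_le_mul k1 k2 k3 (by positivity)) hC1.le) (by norm_num)
    _ = _ := by ring

/-! ### the path and the finite volume events -/

theorem bd_of {v : Vtx} {M : ℤ} (h : sd v (0, 0) < M) : (-M < v.1 ∧ v.1 < M) ∧
    (-M < v.2 ∧ v.2 < M) := by
  rw [Ret_sd, max_lt_iff, abs_lt, abs_lt] at h
  exact h

theorem reach_loc (ω : Conf) (M : ℕ) : ∀ k : ℕ, (k : ℤ) + 1 < M →
    ∃ p : ℤ, (-(M:ℤ) ≤ p ∧ p ≤ 0) ∧
      Reach (↑(cut ω M) ∩ ↑(H731C.VE (-(M:ℤ)) M 0 M)) (p, 0) (path ω k).1 := by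
  intro k
  induction k with
  | zero =>
    intro hk
    exact ⟨0, ⟨by omega, le_rfl⟩, Reach.refl _ _⟩
  | succ k ih =>
    intro hk
    push_cast at hk
    obtain ⟨p, hp, hr⟩ := ih (by omega)
    have b1 := bd_of (lt_of_le_of_lt (path_far ω k) (show (k:ℤ) < (M:ℤ) - 2 by omega))
    have b2 := bd_of (lt_of_le_of_lt (path_far ω (k + 1)) (show ((k + 1 : ℕ):ℤ) < (M:ℤ) - 1 by
      push_cast; omega))
    have n1 := path_nonneg ω k
    have n2 := path_nonneg ω (k + 1)
    rcases Ret_step_cases (opn ω) (path ω k) with h | ⟨e, he, hc, -⟩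
    · rw [← path_succ] at h
      rw [h]
      exact ⟨p, hp, hr⟩
    · rw [← path_succ] at hc
      obtain ⟨x, y, t⟩ := e
      have hop : (y = 0 ∧ t = true ∧ x < 0) ∨ (0 ≤ y ∧ ¬ (y = 0 ∧ t = true) ∧
          ω (x, y, t) = true) := he
      rcases hop with ⟨rfl, rfl, hx⟩ | ⟨hy, hax, hω⟩
      · rw [src_mk, tgt_true] at hc
        generalize path ω (k + 1) = σ' at hc b2 n2
        rcases hc with ⟨h1, h2⟩ | ⟨h1, h2⟩
        · rw [← h2] at b2 ⊢
          simp only at b2
          exact ⟨x + 1, ⟨by omega, by omega⟩, Reach.refl _ _⟩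
        · rw [← h1] at b2 ⊢
          simp only at b2
          exact ⟨x, ⟨by omega, by omega⟩, Reach.refl _ _⟩
      · have hbox : ((x, y, t) : Edg) ∈ RE (-(M:ℤ)) M 0 M ∧
            ((x, y, t) : Edg) ∈ H731C.VE (-(M:ℤ)) M 0 M := by
          generalize path ω (k + 1) = σ' at hc b2 n2
          generalize path ω k = σ at hc b1 n1
          cases t
          · rw [mem_RE_false, H731C.mem_VE_false]
            rw [src_mk, tgt_false] at hc
            rcases hc with ⟨h1, h2⟩ | ⟨h1, h2⟩ <;> rw [Prod.ext_iff] at h1 h2 <;>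
              simp only at h1 h2 <;> omega
          · rw [mem_RE_true, H731C.mem_VE_true]
            rw [src_mk, tgt_true] at hc
            have hy0 : y ≠ 0 := fun h => hax ⟨h, rfl⟩
            rcases hc with ⟨h1, h2⟩ | ⟨h1, h2⟩ <;> rw [Prod.ext_iff] at h1 h2 <;>
              simp only at h1 h2 <;> omega
        refine ⟨p, hp, hr.trans (Adj.reach ⟨(x, y, t), ⟨?_, hbox.2⟩, hc⟩)⟩
        rw [Finset.mem_coe, Couple_mem_cut]
        exact ⟨hbox.1, hω⟩

theorem dreach_loc (ω : Conf) (M : ℕ) : ∀ k : ℕ, (k : ℤ) + 1 < M → 0 ≤ (face (path ω k)).2 →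
    ∃ p : ℤ, (0 ≤ p ∧ p < M) ∧
      DReach ((↑(cut ω M) : Set Edg)ᶜ ∩ ↑(H731C.VE (-(M:ℤ)) M 0 M)) (p, 0)
        (face (path ω k)) := by
  intro k
  induction k with
  | zero =>
    intro hk _
    exact ⟨0, ⟨le_rfl, by omega⟩, DReach.refl _ _⟩
  | succ k ih =>
    intro hk
    push_cast at hk
    have ih' := ih (by omega)
    have b1 := bd_of (lt_of_le_of_lt (path_far ω k) (show (k:ℤ) < (M:ℤ) - 2 by omega))
    have n1 := path_nonneg ω k
    rw [path_succ]
    generalize path ω k = σ at ih' b1 n1 ⊢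
    obtain ⟨⟨x, y⟩, q⟩ := σ
    simp only at b1 n1
    have hcl : ∀ e : Edg, e ∉ opn ω → e ∈ H731C.VE (-(M:ℤ)) M 0 M →
        e ∈ (↑(cut ω M) : Set Edg)ᶜ ∩ ↑(H731C.VE (-(M:ℤ)) M 0 M) := by
      intro e h1 h2
      refine ⟨fun h3 => h1 ?_, h2⟩
      rw [Finset.mem_coe, Couple_mem_cut] at h3
      obtain ⟨a, b, t⟩ := e
      cases t
      · rw [H731C.mem_VE_false] at h2
        exact Or.inr ⟨h2.2.1, by simp, h3.2⟩
      · rw [H731C.mem_VE_true] at h2
        refine Or.inr ⟨h2.2.1.le, ?_, h3.2⟩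
        rintro ⟨h4, -⟩
        simp only at h4
        omega
    cases q
    · -- north east
      simp only [step, face_ne] at ih' ⊢
      split_ifs with hc
      · rw [face_se]
        intro h
        simpa using ih' n1
      · rw [face_nw]
        intro h
        obtain ⟨p, hp, hr⟩ := ih' n1
        refine ⟨p, hp, hr.trans (DAdj.reach ⟨(x, y, false), hcl _ hc ?_, Or.inr ⟨?_, ?_⟩⟩)⟩
        · rw [H731C.mem_VE_false]; omega
        · rw [dsrc_false]
        · rw [dtgt_mk]
    · -- north west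
      simp only [step, face_nw] at ih' ⊢
      split_ifs with hc
      · rw [face_ne]
        intro h
        exact ih' n1
      · rw [face_sw]
        intro h
        simp only at h
        obtain ⟨p, hp, hr⟩ := ih' n1
        refine ⟨p, hp, hr.trans (DAdj.reach ⟨(x - 1, y, true), hcl _ hc ?_, Or.inr ⟨?_, ?_⟩⟩)⟩
        · rw [H731C.mem_VE_true]; omega
        · rw [dsrc_true]
        · rw [dtgt_mk]
    · -- south west
      simp only [step, face_sw] at ih' ⊢
      split_ifs with hc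
      · rw [face_nw]
        intro h
        exact ih' h
      · rw [face_se]
        intro h
        simp only at h
        obtain ⟨p, hp, hr⟩ := ih' h
        refine ⟨p, hp, hr.trans (DAdj.reach ⟨(x, y - 1, false), hcl _ hc ?_, Or.inl ⟨?_, ?_⟩⟩)⟩
        · rw [H731C.mem_VE_false]; omega
        · rw [dsrc_false]
        · rw [dtgt_mk]
    · -- south east
      simp only [step, face_se] at ih' ⊢
      split_ifs with hc
      · rw [face_sw]
        intro h
        simpa using ih' (by simpa using h)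
      · rw [face_ne]
        intro h
        by_cases hy : 1 ≤ y
        · obtain ⟨p, hp, hr⟩ := ih' (by show 0 ≤ y - 1; omega)
          refine ⟨p, hp, hr.trans (DAdj.reach ⟨(x, y, true), hcl _ hc ?_, Or.inl ⟨?_, ?_⟩⟩)⟩
          · rw [H731C.mem_VE_true]; omega
          · rw [dsrc_true]
          · rw [dtgt_mk]
        · have hy0 : y = 0 := by omega
          subst hy0
          have hx : 0 ≤ x := by
            by_contra hx
            exact hc (Or.inl ⟨rfl, rfl, by simpa using hx⟩)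
          exact ⟨x, ⟨hx, by omega⟩, DReach.refl _ _⟩

theorem hv_loc {M : ℤ} {v : Vtx} (F : Finset Edg) :
    H731G.HV M v F ↔ H731G.HV M v (F ∩ H731C.VE (-M) M 0 M) := by
  have e1 : (↑(F ∩ H731C.VE (-M) M 0 M) : Set Edg) ∩ ↑(H731C.VE (-M) M 0 M) =
      ↑F ∩ ↑(H731C.VE (-M) M 0 M) := by
    rw [Finset.coe_inter, Set.inter_assoc, Set.inter_self]
  have e2 : (↑(F ∩ H731C.VE (-M) M 0 M) : Set Edg)ᶜ ∩ ↑(H731C.VE (-M) M 0 M) =
      (↑F : Set Edg)ᶜ ∩ ↑(H731C.VE (-M) M 0 M) := by
    rw [Finset.coe_inter]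
    ext e
    simp only [Set.mem_inter_iff, Set.mem_compl_iff]
    tauto
  unfold H731G.HV H731G.HVA H731G.HFB
  rw [e1, e2]

theorem vst_hv {n : ℕ} {v : Vtx} (hv : 1 ≤ v.2) {M : ℕ} (hM : n + 1 ≤ M) :
    perc.real {ω | Vst n v ω} ≤
      H731C.P2 (H731C.VE (-(M:ℤ)) M 0 M) (H731G.HV M v) := by
  have h1 : perc.real {ω | Vst n v ω} ≤ perc.real {ω | H731G.HV M v (cut ω M)} := by
    apply measureReal_mono
    · rintro ω ⟨k, hk, rfl⟩
      obtain ⟨p, hp, hr⟩ := reach_loc ω M k (by omega)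
      have hf := arms_face (path ω k)
      obtain ⟨p', hp', hr'⟩ := dreach_loc ω M k (by omega) (by omega)
      refine ⟨⟨p, hp, hr⟩, face (path ω k), ?_, p', hp', hr'⟩
      unfold H731G.cor
      omega
    · exact measure_ne_top _ _
  refine h1.trans (le_of_eq ?_)
  rw [perc_cut (M : ℤ) (fun F => H731G.HV M v F)]
  exact Pr_local (H731C.VE_subset_RE (a := -(M:ℤ)) (b := M) (c := 0) (d := M))
    (fun F _ => hv_loc F)

/-- The vertices off the axis. -/
theorem visit_in : ∃ C : ℝ, 0 < C ∧ ∀ (n : ℕ) (v : Vtx), 1 ≤ v.2 →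
    perc.real {ω | Vst n v ω} ≤ C * ((|v.1| + v.2 : ℤ) : ℝ) ^ (-(1/4) : ℝ) := by
  obtain ⟨C, hC, h⟩ := hv_fin
  refine ⟨C, hC, fun n v hv => ?_⟩
  obtain ⟨x, y'⟩ := v
  simp only at hv
  lift y' to ℕ using (by omega) with y
  have hy : 1 ≤ y := by exact_mod_cast hv
  obtain ⟨M, hM⟩ : ∃ M : ℕ, M = n + 1 + (4 * (|x| + (y:ℤ))).toNat := ⟨_, rfl⟩
  have hax : 0 ≤ |x| := abs_nonneg x
  have h1 := vst_hv (n := n) (v := (x, (y:ℤ))) hv (M := M) (by omega)
  have h2 := h x y M hy (by omega)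
  refine h1.trans (h2.trans ?_)
  have hy0 : (0:ℝ) < y := by exact_mod_cast (by omega : 0 < y)
  have hz0 : (0 : ℝ) < ((|x| + y : ℤ) : ℝ) := by exact_mod_cast (by omega : 0 < |x| + (y : ℤ))
  have hyz : (y:ℝ) ≤ ((|x| + y : ℤ) : ℝ) := by exact_mod_cast (by omega : (y:ℤ) ≤ |x| + y)
  refine mul_le_mul_of_nonneg_left ?_ hC.le
  show _ ≤ ((|x| + y : ℤ) : ℝ) ^ (-(1/4) : ℝ)
  have h3 : ((y:ℝ) / ((|x| + y : ℤ) : ℝ)) ^ ((1:ℝ)/3) ≤
      ((y:ℝ) / ((|x| + y : ℤ) : ℝ)) ^ ((1:ℝ)/4) :=
    Real.rpow_le_rpow_of_exponent_ge (by positivity) ((div_le_one hz0).2 hyz) (by norm_num)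
  calc ((1:ℝ) / y) ^ ((1:ℝ)/4) * ((y:ℝ) / ((|x| + y : ℤ) : ℝ)) ^ ((1:ℝ)/3) ≤
        ((1:ℝ) / y) ^ ((1:ℝ)/4) * ((y:ℝ) / ((|x| + y : ℤ) : ℝ)) ^ ((1:ℝ)/4) :=
        mul_le_mul_of_nonneg_left h3 (by positivity)
    _ = (1 / ((|x| + y : ℤ) : ℝ)) ^ ((1:ℝ)/4) := by
        rw [← Real.mul_rpow (by positivity) (by positivity)]
        congr 1
        field_simp
    _ = ((|x| + y : ℤ) : ℝ) ^ (-(1/4) : ℝ) := by
        rw [Real.rpow_neg hz0.le, one_div, Real.inv_rpow hz0.le]

/-! ### the axis -/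

/-- The edge on which a step depends. -/
def ex (σ : St) : Edg := match σ.2 with
  | .ne => (σ.1.1, σ.1.2, false)
  | .nw => (σ.1.1 - 1, σ.1.2, true)
  | .sw => (σ.1.1, σ.1.2 - 1, false)
  | .se => (σ.1.1, σ.1.2, true)

theorem step_ex {G G' : Set Edg} {σ : St} (h : ex σ ∈ G ↔ ex σ ∈ G') :
    step G σ = step G' σ := by
  obtain ⟨⟨x, y⟩, q⟩ := σ
  cases q
  all_goals
    simp only [ex] at h
    simp only [step]
    split_ifs with h1 h2 h2
    · rfl
    · exact absurd (h.1 h1) h2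
    · exact absurd (h.2 h2) h1
    · rfl

/-- The path does not go below the negative half-axis. -/
theorem above (ω : Conf) : ∀ k : ℕ, (path ω k).1.2 = 0 →
    ((path ω k).2 = .sw ∨ (path ω k).2 = .se) → 1 ≤ (path ω k).1.1 := by
  intro k
  induction k with
  | zero =>
    intro _ h
    rcases h with h | h <;> simp [path] at h
  | succ k ih =>
    have n1 := path_nonneg ω k
    rw [path_succ]
    generalize path ω k = σ at ih n1 ⊢
    obtain ⟨⟨x, y⟩, q⟩ := σ
    simp only at n1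
    cases q
    · simp only [step]
      split_ifs with hc
      · intro h _
        simp only at h
        omega
      · intro _ h
        rcases h with h | h <;> simp at h
    · simp only [step]
      split_ifs with hc
      · intro _ h
        rcases h with h | h <;> simp at h
      · intro h _
        simp only at h
        subst h
        simp only
        by_contra hx
        exact hc (Or.inl ⟨rfl, rfl, by simp only; omega⟩)
    · simp only [step]
      split_ifs with hc
      · intro _ h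
        rcases h with h | h <;> simp at h
      · intro h _
        exact ih h (Or.inl rfl)
    · simp only [step]
      split_ifs with hc
      · intro h _
        have := ih h (Or.inr rfl)
        simp only at this ⊢
        omega
      · intro _ h
        rcases h with h | h <;> simp at h

theorem mem_opn_true {ω : Conf} {x y : ℤ} : ((x, y, true) : Edg) ∈ opn ω ↔
    (y = 0 ∧ x < 0) ∨ (0 ≤ y ∧ y ≠ 0 ∧ ω (x, y, true) = true) := by
  unfold H984H.opn
  simp only [Set.mem_ofPred_eq, true_and, and_true, ne_eq]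

theorem mem_opn_false {ω : Conf} {x y : ℤ} : ((x, y, false) : Edg) ∈ opn ω ↔
    (0 ≤ y ∧ ω (x, y, false) = true) := by
  unfold H984H.opn
  simp

/-- A visit of a point of the axis: the point above it is visited, perhaps after the vertical edge
has been opened. -/
theorem axis_visit {n : ℕ} {x : ℤ} (hx : x ≠ 0) {ω ω' : Conf}
    (hω : ∀ e, e ≠ (x, 0, false) → ω' e = ω e) (hω' : ω' (x, 0, false) = true)
    (h : Vst n (x, 0) ω) : Vst (n + 2) (x, 1) ω ∨ Vst (n + 2) (x, 1) ω' := by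
  classical
  have hex : ∃ k, (path ω k).1 = (x, 0) := by
    obtain ⟨k, -, hk⟩ := h
    exact ⟨k, hk⟩
  obtain ⟨k1, hk1n, hk1⟩ := h
  set k := Nat.find hex with hkd
  have hk : (path ω k).1 = (x, 0) := Nat.find_spec hex
  have hkn : k < n := lt_of_le_of_lt (Nat.find_min' hex hk1) hk1n
  have hmin : ∀ j < k, (path ω j).1 ≠ (x, 0) := fun j hj => Nat.find_min hex hj
  have hk0 : k ≠ 0 := by
    intro h0
    rw [h0] at hk
    simp only [path, Prod.mk.injEq] at hk
    exact hx hk.1.symm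
  obtain ⟨m, hm⟩ := Nat.exists_eq_succ_of_ne_zero hk0
  rw [Nat.succ_eq_add_one] at hm
  by_contra hcon
  rw [not_or] at hcon
  obtain ⟨c1, c2⟩ := hcon
  have hno : ∀ j, j < n + 2 → (path ω j).1 ≠ (x, 1) := fun j hj h => c1 ⟨j, hj, h⟩
  -- the state at time `k`
  have hst : path ω k = ((x, 0), .ne) := by
    have h1 := hmin m (by omega)
    have h2 := hno m (by omega)
    have h3 := above ω m
    have h4 := hk
    rw [hm, path_succ] at h4
    rw [hm, path_succ]
    generalize path ω m = σ at h1 h2 h3 h4 ⊢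
    obtain ⟨⟨a, b⟩, q⟩ := σ
    cases q
    · simp only [step] at h4 ⊢
      split_ifs at h4 ⊢ with hc
      · simp only [Prod.mk.injEq] at h4
        exfalso
        have n1 : b = -1 := by omega
        rw [mem_opn_false] at hc
        omega
      · exact absurd h4 h1
    · simp only [step] at h4 ⊢
      split_ifs at h4 ⊢ with hc
      · simp only at h4
        rw [h4]
      · exact absurd h4 h1
    · simp only [step] at h4 ⊢
      split_ifs at h4 ⊢ with hc
      · exfalso
        simp only [Prod.mk.injEq] at h4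
        apply h2
        rw [Prod.mk.injEq]
        omega
      · exact absurd h4 h1
    · simp only [step] at h4 ⊢
      split_ifs at h4 ⊢ with hc
      · exfalso
        simp only [Prod.mk.injEq] at h4
        obtain ⟨h5, h6⟩ := h4
        have h7 := h3 h6 (Or.inr rfl)
        simp only at h7
        rw [mem_opn_true] at hc
        omega
      · exact absurd h4 h1
  -- the two paths agree up to time `k`
  have hag : ∀ j, j ≤ k → path ω' j = path ω j := by
    intro j
    induction j with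
    | zero => intro _; rfl
    | succ j ih =>
      intro hj
      rw [path_succ, path_succ, ih (by omega)]
      apply step_ex
      have h1 := hmin j (by omega)
      have h2 := hno j (by omega)
      generalize path ω j = σ at h1 h2 ⊢
      have h3 : ex σ ≠ (x, 0, false) := by
        obtain ⟨⟨a, b⟩, q⟩ := σ
        cases q
        · intro h
          simp only [ex, Prod.mk.injEq, and_true] at h
          exact h1 (by rw [h.1, h.2])
        · intro h
          simp [ex] at h
        · intro h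
          simp only [ex, Prod.mk.injEq, and_true] at h
          apply h2
          rw [Prod.mk.injEq]
          omega
        · intro h
          simp [ex] at h
      unfold H984H.opn
      simp only [Set.mem_ofPred_eq]
      rw [hω _ h3]
  apply c2
  refine ⟨k + 1, by omega, ?_⟩
  rw [path_succ, hag k le_rfl, hst]
  have : ((x, 0, false) : Edg) ∈ opn ω' := by
    rw [mem_opn_false]
    exact ⟨le_rfl, hω'⟩
  simp only [step]
  rw [if_pos this]
  simp

/-- The vertices of the axis. -/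
theorem visit_axis (n : ℕ) {x : ℤ} (hx : x ≠ 0) :
    perc.real {ω | Vst n (x, 0) ω} ≤ 3 * perc.real {ω | Vst (n + 2) (x, 1) ω} := by
  obtain ⟨ρ, hρ⟩ : ∃ ρ : ℤ, ρ = n + 3 + |x| := ⟨_, rfl⟩
  have hax := abs_nonneg x
  have h1 : ((n:ℕ) : ℤ) < ρ := by omega
  have h2 : (((n + 2 : ℕ)) : ℤ) < ρ := by push_cast; omega
  rw [Vst_cut h1, Vst_cut h2]
  set e : Edg := (x, 0, false) with he
  have heV : e ∈ (bx ρ).edges := by
    show e ∈ RE (-ρ) ρ 0 ρ
    rw [he, mem_RE_false]
    have a1 := le_abs_self x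
    have a2 := neg_abs_le x
    omega
  set B : Finset Edg → Prop := fun F => Vst (n + 2) (x, 1) (cf F) with hB
  have h3 : P (bx ρ).edges (fun F => Vst n (x, 0) (cf F)) ≤
      P (bx ρ).edges B + P (bx ρ).edges (fun F => B (insert e F)) := by
    show Ex _ _ _ ≤ Ex _ _ _ + Ex _ _ _
    rw [← Ex_add]
    refine Ex_mono (fun _ => ⟨by norm_num, by norm_num⟩) fun F _ => ?_
    by_cases hv : Vst n (x, 0) (cf F)
    · have h4 := axis_visit hx (ω := cf F) (ω' := cf (insert e F)) (by
        intro e' he'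
        unfold cf
        rw [decide_eq_decide, Finset.mem_insert]
        constructor
        · rintro (h | h)
          · exact absurd h he'
          · exact h
        · exact Or.inr) (by
        unfold cf
        rw [decide_eq_true_eq]
        exact Finset.mem_insert_self _ _) hv
      rw [ind_of hv]
      rcases h4 with h4 | h4
      · rw [ind_of (show B F from h4)]
        have := ind_nonneg (B (insert e F))
        linarith
      · rw [ind_of (show B (insert e F) from h4)]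
        have := ind_nonneg (B F)
        linarith
    · rw [ind_not_of hv]
      have := ind_nonneg (B (insert e F))
      have := ind_nonneg (B F)
      linarith
  have h4 : P (bx ρ).edges (fun F => B (insert e F)) ≤ 2 * P (bx ρ).edges B := by
    obtain ⟨S, hS, hSe⟩ : ∃ S, e ∉ S ∧ insert e S = (bx ρ).edges :=
      ⟨(bx ρ).edges.erase e, Finset.notMem_erase e _, Finset.insert_erase heV⟩
    rw [← hSe]
    show Ex _ _ _ ≤ 2 * Ex _ _ _
    rw [Ex_insert _ hS, Ex_insert _ hS]
    have e1 : ∀ F : Finset Edg, insert e (insert e F) = insert e F := fun F => by simp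
    simp only [e1]
    have h5 : 0 ≤ Ex (fun _ : Edg => (1/2:ℝ)) S (fun F => ind (B F)) :=
      Ex_nonneg (fun _ => ⟨by norm_num, by norm_num⟩) (fun F _ => ind_nonneg _)
    linarith
  linarith

/-- **The revealment**: exponent `1/4`. -/
theorem rev_quarter : ∃ Cv : ℝ, 0 < Cv ∧ RevB (1/4) Cv := by
  obtain ⟨C, hC, hin⟩ := visit_in
  refine ⟨6 * C, by positivity, ?_⟩
  intro n r ρ hr hρ e he
  rw [Finset.mem_sdiff, mem_WW, not_and] at he
  have hnb := he.2 he.1
  have hr0 : (0:ℝ) < r := by exact_mod_cast hr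
  -- both endpoints are far
  have hfar : (r : ℤ) ≤ sd (src e) (0, 0) ∧ (r : ℤ) ≤ sd (tgt e) (0, 0) := by
    unfold InBox at hnb
    rw [not_and_or, not_le, not_le] at hnb
    obtain ⟨x, y, _ | _⟩ := e
    · rw [src_mk, tgt_false] at hnb ⊢
      rw [Ret_sd, Ret_sd] at hnb ⊢
      simp only at hnb ⊢
      rw [lt_max_iff, lt_max_iff, lt_abs, lt_abs, lt_abs] at hnb
      rw [le_max_iff, le_max_iff, le_abs, le_abs, le_abs]
      omega
    · rw [src_mk, tgt_true] at hnb ⊢
      rw [Ret_sd, Ret_sd] at hnb ⊢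
      simp only at hnb ⊢
      rw [lt_max_iff, lt_max_iff, lt_abs, lt_abs, lt_abs] at hnb
      rw [le_max_iff, le_max_iff, le_abs, le_abs, le_abs]
      omega
  have hv : ∀ v : Vtx, (r : ℤ) ≤ sd v (0, 0) →
      perc.real {ω | Vst n v ω} ≤ 3 * C * (r : ℝ) ^ (-(1/4) : ℝ) := by
    intro v hv
    have hmono : ∀ z : ℤ, (r:ℤ) ≤ z → (z : ℝ) ^ (-(1/4) : ℝ) ≤ (r : ℝ) ^ (-(1/4) : ℝ) := by
      intro z hz
      exact Real.rpow_le_rpow_of_nonpos hr0 (by exact_mod_cast hz) (by norm_num)
    have hrp : 0 < (r : ℝ) ^ (-(1/4) : ℝ) := Real.rpow_pos_of_pos hr0 _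
    rw [Ret_sd] at hv
    rcases lt_trichotomy v.2 0 with h | h | h
    · have : {ω : Conf | Vst n v ω} = ∅ := by
        ext ω
        simp only [Set.mem_ofPred_eq, Set.mem_empty_iff_false, iff_false]
        rintro ⟨k, -, hk⟩
        have := path_nonneg ω k
        rw [hk] at this
        omega
      rw [this, measureReal_empty]
      positivity
    · obtain ⟨x, y⟩ := v
      simp only at h hv
      subst h
      have hx : (r:ℤ) ≤ |x| := by
        rw [abs_zero, max_eq_left (abs_nonneg x)] at hv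
        exact hv
      have hx0 : x ≠ 0 := by
        rintro rfl
        rw [abs_zero] at hx
        omega
      have h1 := visit_axis n hx0
      have h2 := hin (n + 2) (x, 1) (by simp)
      have h3 := hmono (|x| + 1) (by omega)
      have h4 := mul_le_mul_of_nonneg_left h3 hC.le
      simp only at h2
      linarith
    · have h2 := hin n v (by omega)
      have h3 := hmono (|v.1| + v.2) (by
        have a1 := abs_nonneg v.1
        rcases le_max_iff.1 hv with h' | h'
        · omega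
        · rw [abs_of_pos h] at h'; omega)
      have h4 := mul_le_mul_of_nonneg_left h3 hC.le
      nlinarith
  have h1 := reveal hρ e
  have h2 := hv _ hfar.1
  have h3 := hv _ hfar.2
  have h4 : 6 * C * (r : ℝ) ^ (-(1/4) : ℝ) = 3 * C * (r : ℝ) ^ (-(1/4) : ℝ) +
      3 * C * (r : ℝ) ^ (-(1/4) : ℝ) := by ring
  rw [h4]
  linarith

end Pool.Agent.Zk72.NE
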